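import Mathlib

set_option autoImplicit false
open Finset

/-! # Noncrossing chords on a line: colours by parity

`P` : positions of the ports, `s` : a bijection of `P`. The chord of `i` joins the rays `i` (before the
position `i`) and `s i + 1` (behind the position `s i`): `ca s i`, `cb s i`. `Pat L P s` : the ports are in
`[1, L)`, not adjacent, the last one is `L - 1`, the chords do not cross. `on P s M m t` : at the level `m` the
position `t` is covered by an odd number of chords of level `>= m`; the level of a chord is `M` + its length.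
`on_low` : up to the level `M` exactly the ports are on. `open_path`, `closed_path` : next to both sides of each
chord there is a path of one colour. -/

namespace Pool.Agent.H83.J

/-- first ray of the chord -/
def ca (s : ℤ → ℤ) (i : ℤ) : ℤ := min i (s i + 1)

/-- last ray of the chord -/
def cb (s : ℤ → ℤ) (i : ℤ) : ℤ := max i (s i + 1)

/-- **Noncrossing chords** -/
structure Pat (L : ℤ) (P : Finset ℤ) (s : ℤ → ℤ) : Prop where
  pos : ∀ i ∈ P, 0 < i
  lt' : ∀ i ∈ P, i < L
  last : L - 1 ∈ P
  maps : ∀ i ∈ P, s i ∈ P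
  inj : ∀ i ∈ P, ∀ j ∈ P, s i = s j → i = j
  gap : ∀ i ∈ P, i + 1 ∉ P
  nc : ∀ i ∈ P, ∀ j ∈ P, i ≠ j → cb s i < ca s j ∨ cb s j < ca s i ∨ (ca s i < ca s j ∧ cb s j < cb s i) ∨
    (ca s j < ca s i ∧ cb s i < cb s j)

open Classical in
/-- chords which cover the position `t` at the level `m` -/
noncomputable def cov (P : Finset ℤ) (s : ℤ → ℤ) (M m t : ℤ) : Finset ℤ :=
  P.filter fun i => ca s i ≤ t ∧ t < cb s i ∧ m ≤ M + (cb s i - ca s i)

/-- the position `t` is open at the level `m` -/
def on (P : Finset ℤ) (s : ℤ → ℤ) (M m t : ℤ) : Prop := Odd (cov P s M m t).card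

open Classical in
/-- chords which enclose the chord of `i` -/
noncomputable def enc (P : Finset ℤ) (s : ℤ → ℤ) (i : ℤ) : Finset ℤ :=
  P.filter fun j => ca s j < ca s i ∧ cb s i < cb s j

variable {L M m t i : ℤ} {P : Finset ℤ} {s : ℤ → ℤ}

lemma mem_cov {j : ℤ} : j ∈ cov P s M m t ↔
    j ∈ P ∧ ca s j ≤ t ∧ t < cb s j ∧ m ≤ M + (cb s j - ca s j) := by
  unfold cov; rw [mem_filter]

namespace Pat

variable (h : Pat L P s)

include h

lemma ne (hi : i ∈ P) : i ≠ s i + 1 := fun e => h.gap _ (h.maps i hi) (e ▸ hi)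

lemma lt_ab (hi : i ∈ P) : ca s i < cb s i := by
  have := h.ne hi
  unfold ca cb
  omega

lemma ca_pos (hi : i ∈ P) : 0 < ca s i := by
  have h1 := h.pos i hi
  have h2 := h.pos _ (h.maps i hi)
  unfold ca
  omega

lemma cb_le (hi : i ∈ P) : cb s i ≤ L := by
  have h1 := h.lt' i hi
  have h2 := h.lt' _ (h.maps i hi)
  unfold cb
  omega

lemma sum_s (f : ℤ → ℕ) : ∑ i ∈ P, f (s i) = ∑ i ∈ P, f i := by
  classical
  have hm : Set.MapsTo s (P : Set ℤ) (P : Set ℤ) := fun i hi => h.maps i hi
  have hi : Set.InjOn s (P : Set ℤ) := fun i hi j hj e => h.inj i hi j hj e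
  refine sum_nbij s (fun i hi => h.maps i hi) hi ?_ (fun _ _ => rfl)
  exact surjOn_of_injOn_of_card_le s hm hi le_rfl

/-- **Up to the level `M` exactly the ports are open.** -/
theorem on_low (hm : m ≤ M) : on P s M m t ↔ t ∈ P := by
  classical
  unfold on
  have e1 : (cov P s M m t).card = ∑ i ∈ P, if ca s i ≤ t ∧ t < cb s i then 1 else 0 := by
    rw [← card_filter]
    congr 1
    unfold cov
    refine filter_congr fun i hi => ?_
    have := h.lt_ab hi
    omega
  have e2 : (∑ i ∈ P, if ca s i ≤ t ∧ t < cb s i then 1 else 0) + 2 * (∑ i ∈ P, if cb s i ≤ t then 1 else 0) =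
      (∑ i ∈ P, if i ≤ t then 1 else 0) + ∑ i ∈ P, if s i + 1 ≤ t then 1 else 0 := by
    rw [mul_sum, ← sum_add_distrib, ← sum_add_distrib]
    refine sum_congr rfl fun i hi => ?_
    have h1 := h.lt_ab hi
    have h2 : (ca s i = i ∧ cb s i = s i + 1) ∨ (ca s i = s i + 1 ∧ cb s i = i) := by
      unfold ca cb; omega
    rcases h2 with ⟨h2, h3⟩ | ⟨h2, h3⟩ <;> rw [h2, h3] <;> rw [h2, h3] at h1 <;>
      split_ifs <;> omega
  have e3 := h.sum_s (fun j => if j + 1 ≤ t then 1 else 0)
  have e4 : (∑ i ∈ P, if i ≤ t then 1 else 0) = (∑ i ∈ P, if i + 1 ≤ t then 1 else 0) +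
      ∑ i ∈ P, if t = i then 1 else 0 := by
    rw [← sum_add_distrib]
    refine sum_congr rfl fun i _ => ?_
    split_ifs <;> omega
  have e5 : (∑ i ∈ P, if t = i then 1 else 0) = if t ∈ P then 1 else 0 := sum_ite_eq P t _
  rw [e1]
  have e6 : Odd ((∑ i ∈ P, if ca s i ≤ t ∧ t < cb s i then 1 else 0) +
      2 * (∑ i ∈ P, if cb s i ≤ t then 1 else 0)) ↔
      Odd (∑ i ∈ P, if ca s i ≤ t ∧ t < cb s i then 1 else 0) := by
    rw [Nat.odd_iff, Nat.odd_iff]; omega
  rw [← e6, e2, e3, e4, e5, Nat.odd_iff]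
  split_ifs with h1
  · exact ⟨fun _ => h1, fun _ => by omega⟩
  · exact ⟨fun h2 => by omega, fun h2 => absurd h2 h1⟩

/-- inside, next to the chord -/
lemma cov_in (hi : i ∈ P) (h1 : ca s i ≤ t) (h2 : t < cb s i) (h3 : m ≤ M + (cb s i - ca s i))
    (h4 : t = ca s i ∨ t = cb s i - 1 ∨ m = M + (cb s i - ca s i)) :
    (cov P s M m t).card = (enc P s i).card + 1 := by
  classical
  have e1 : cov P s M m t = insert i (enc P s i) := by
    ext j
    unfold cov enc
    rw [mem_insert, mem_filter, mem_filter]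
    constructor
    · rintro ⟨hj, h6, h7, h8⟩
      by_cases e : i = j
      · exact Or.inl e.symm
      · have := h.nc i hi j hj e
        exact Or.inr ⟨hj, by omega⟩
    · rintro (rfl | ⟨hj, h6⟩)
      · exact ⟨hi, by omega⟩
      · exact ⟨hj, by omega⟩
  rw [e1, card_insert_of_notMem (by unfold enc; rw [mem_filter]; rintro ⟨-, h, -⟩; exact lt_irrefl _ h)]

/-- outside, next to the chord -/
lemma cov_out (hi : i ∈ P) (h1 : ca s i - 1 ≤ t) (h2 : t ≤ cb s i) (h3 : m ≤ M + (cb s i - ca s i) + 1)
    (h4 : t = ca s i - 1 ∨ t = cb s i ∨ m = M + (cb s i - ca s i) + 1) :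
    (cov P s M m t).card = (enc P s i).card := by
  classical
  congr 1
  ext j
  unfold cov enc
  rw [mem_filter, mem_filter]
  constructor
  · rintro ⟨hj, h6, h7, h8⟩
    by_cases e : i = j
    · subst e; omega
    · have := h.nc i hi j hj e
      exact ⟨hj, by omega⟩
  · rintro ⟨hj, h6⟩
    exact ⟨hj, by omega⟩

/-- the last port is the only one whose ray is the end -/
lemma on_out (ht : t ≤ 0 ∨ L ≤ t) : ¬ on P s M m t := by
  classical
  unfold on
  have : cov P s M m t = ∅ := by
    rw [eq_empty_iff_forall_notMem]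
    intro j hj
    rw [mem_cov] at hj
    have h1 := h.ca_pos hj.1
    have h2 := h.cb_le hj.1
    omega
  rw [this]
  simp

/-- above all chords nothing is open -/
lemma on_high (hm : M + L ≤ m) : ¬ on P s M m t := by
  classical
  unfold on
  have : cov P s M m t = ∅ := by
    rw [eq_empty_iff_forall_notMem]
    intro j hj
    rw [mem_cov] at hj
    have h1 := h.ca_pos hj.1
    have h2 := h.cb_le hj.1
    omega
  rw [this]
  simp

/-- parity of the enclosing chords -/
lemma enc_odd (hi : i ∈ P) : (i ≤ s i → ¬ Odd (enc P s i).card) ∧ (s i < i → Odd (enc P s i).card) := by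
  have h1 := h.lt_ab hi
  have h2 := h.cov_in (M := 0) (m := 0) (t := ca s i) hi le_rfl h1 (by omega) (Or.inl rfl)
  have h3 := h.on_low (M := 0) (m := 0) (t := ca s i) le_rfl
  unfold on at h3
  rw [h2] at h3
  constructor
  · intro h4
    have h5 : ca s i = i := by unfold ca; omega
    rw [h5] at h3
    have h6 := h3.2 hi
    rw [Nat.odd_iff] at h6 ⊢
    omega
  · intro h4
    have h5 : ca s i = s i + 1 := by unfold ca; omega
    rw [h5] at h3
    have h6 : ¬ Odd ((enc P s i).card + 1) := fun h7 => h.gap _ (h.maps i hi) (h3.1 h7)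
    rw [Nat.odd_iff] at h6 ⊢
    omega

/-- **Open path along the chord.** -/
theorem open_path (hi : i ∈ P) : ∃ k, M < k ∧ ∀ m t, m ≤ k → min i (s i) ≤ t → t ≤ max i (s i) →
    (t = i ∨ t = s i ∨ m = k) → on P s M m t := by
  have h1 := h.lt_ab hi
  have h2 := h.ne hi
  rcases lt_or_ge (s i) i with h3 | h3
  · have ho := (h.enc_odd hi).2 h3
    have e1 : ca s i = s i + 1 := by unfold ca; omega
    have e2 : cb s i = i := by unfold cb; omega
    refine ⟨M + (cb s i - ca s i) + 1, by omega, fun m t k1 k2 k3 k4 => ?_⟩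
    unfold on
    rw [h.cov_out hi (by omega) (by omega) (by omega) (by omega)]
    exact ho
  · have ho := (h.enc_odd hi).1 h3
    have e1 : ca s i = i := by unfold ca; omega
    have e2 : cb s i = s i + 1 := by unfold cb; omega
    refine ⟨M + (cb s i - ca s i), by omega, fun m t k1 k2 k3 k4 => ?_⟩
    unfold on
    rw [h.cov_in hi (by omega) (by omega) (by omega) (by omega)]
    rw [Nat.odd_iff] at ho ⊢
    omega

/-- **Closed path along the chord.** -/
theorem closed_path (hi : i ∈ P) : ∃ k, M < k ∧ ∀ m t, m ≤ k → min (i - 1) (s i + 1) ≤ t →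
    t ≤ max (i - 1) (s i + 1) → (t = i - 1 ∨ t = s i + 1 ∨ m = k) → ¬ on P s M m t := by
  have h1 := h.lt_ab hi
  have h2 := h.ne hi
  rcases lt_or_ge (s i) i with h3 | h3
  · have ho := (h.enc_odd hi).2 h3
    have e1 : ca s i = s i + 1 := by unfold ca; omega
    have e2 : cb s i = i := by unfold cb; omega
    refine ⟨M + (cb s i - ca s i), by omega, fun m t k1 k2 k3 k4 => ?_⟩
    unfold on
    rw [h.cov_in hi (by omega) (by omega) (by omega) (by omega)]
    rw [Nat.odd_iff] at ho ⊢
    omega
  · have ho := (h.enc_odd hi).1 h3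
    have e1 : ca s i = i := by unfold ca; omega
    have e2 : cb s i = s i + 1 := by unfold cb; omega
    refine ⟨M + (cb s i - ca s i) + 1, by omega, fun m t k1 k2 k3 k4 => ?_⟩
    unfold on
    rw [h.cov_out hi (by omega) (by omega) (by omega) (by omega)]
    exact ho

end Pat

end Pool.Agent.H83.J
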