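import Mathlib
import Pool.Agent.H13.Sp.Pos
import Pool.Agent.H83.J.Col

set_option autoImplicit false
open Finset

/-! # Matchings of the starts and the ends of the wired arcs

Positions of `H13/Sp/Pos`. `Mat D l0 s` : a noncrossing matching of the starts with the ends of the wired arcs, cut
behind the end `l0` at which the root strand enters. `Fr D k` : the first row (position on the large box) of the
position `k`. `pM`, `PM`, `sM` : the ports (last rows of the wired arcs), their set, the matching of the ports;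
`pat_of_mat` : the chords of the ports do not cross. -/

namespace Pool.Agent.H83.J

open Pool.Agent.H46.Sp (Win)
open Pool.Agent.H13.Sp (nP nP_pos colp colp_add)

/-- start of a wired arc -/
def St (D : Win) (l0 k : ℤ) : Prop :=
  l0 < k ∧ k ≤ l0 + nP D ∧ colp D (k - 1) = false ∧ colp D k = true

/-- end of a wired arc -/
def En (D : Win) (l0 l : ℤ) : Prop :=
  l0 < l ∧ l ≤ l0 + nP D ∧ colp D l = true ∧ colp D (l + 1) = false

/-- **A noncrossing matching** of the starts with the ends -/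
structure Mat (D : Win) (l0 : ℤ) (s : ℤ → ℤ) : Prop where
  root : colp D l0 = true ∧ colp D (l0 + 1) = false
  maps : ∀ k, St D l0 k → En D l0 (s k)
  inj : ∀ k k', St D l0 k → St D l0 k' → s k = s k' → k = k'
  nc : ∀ k k', St D l0 k → St D l0 k' → k ≠ k' →
    cb s k < ca s k' ∨ cb s k' < ca s k ∨ (ca s k < ca s k' ∧ cb s k' < cb s k) ∨
    (ca s k' < ca s k ∧ cb s k < cb s k')

/-- first row of the position `k` on the large box -/
def Fr (D : Win) (k : ℤ) : ℤ := k + D.h + 4 + 10 * (k / nP D) + (if 1 ≤ k % nP D then 5 else 0) +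
  (if D.h + 3 ≤ k % nP D then 5 else 0)

variable {D : Win} {l0 k k' l l' a b : ℤ} {s : ℤ → ℤ}

lemma mod_succ {n : ℤ} (hn : 0 < n) (k : ℤ) :
    (k % n + 1 < n ∧ (k + 1) % n = k % n + 1 ∧ (k + 1) / n = k / n) ∨
    (k % n + 1 = n ∧ (k + 1) % n = 0 ∧ (k + 1) / n = k / n + 1) := by
  have e1 := Int.emod_add_mul_ediv k n
  have h0 := Int.emod_nonneg k hn.ne'
  have h1 := Int.emod_lt_of_pos k hn
  rcases (by omega : k % n + 1 < n ∨ k % n + 1 = n) with h | h
  · left
    have e : k + 1 = (k % n + 1) + n * (k / n) := by linarith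
    refine ⟨h, ?_, ?_⟩
    · conv_lhs => rw [e]
      rw [Int.add_mul_emod_self_left, Int.emod_eq_of_lt (by omega) h]
    · conv_lhs => rw [e]
      rw [Int.add_mul_ediv_left _ _ hn.ne', Int.ediv_eq_zero_of_lt (by omega) h, zero_add]
  · right
    have e : k + 1 = 0 + n * (k / n + 1) := by
      have : n * (k / n + 1) = n * (k / n) + n := by ring
      linarith
    refine ⟨h, ?_, ?_⟩
    · conv_lhs => rw [e]
      rw [Int.add_mul_emod_self_left, Int.zero_emod]
    · conv_lhs => rw [e]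
      rw [Int.add_mul_ediv_left _ _ hn.ne', Int.zero_ediv, zero_add]

lemma Fr_succ (D : Win) (k : ℤ) : Fr D k + 1 ≤ Fr D (k + 1) := by
  have hh := D.hh
  have hn : nP D = 2 * D.h + 4 := rfl
  have h0 := Int.emod_nonneg k (nP_pos D).ne'
  unfold Fr
  rcases mod_succ (nP_pos D) k with ⟨h1, h2, h3⟩ | ⟨h1, h2, h3⟩
  · rw [h2, h3]
    split_ifs <;> omega
  · rw [h2, h3]
    split_ifs <;> omega

lemma Fr_mono (D : Win) (h : a ≤ b) : Fr D a + (b - a) ≤ Fr D b := by
  obtain ⟨n, hn⟩ : ∃ n : ℕ, b = a + n := ⟨(b - a).toNat, by omega⟩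
  subst hn
  induction n with
  | zero => simp
  | succ n ih =>
    have h1 := ih (by omega)
    have h2 := Fr_succ D (a + n)
    push_cast at h1 ⊢
    rw [← add_assoc]
    omega

lemma Fr_add (D : Win) (k : ℤ) : Fr D (k + nP D) = Fr D k + (nP D + 10) := by
  have e1 : (k + nP D) % nP D = k % nP D := Int.add_emod_right _ _
  have e2 : (k + nP D) / nP D = k / nP D + 1 := by
    rw [Int.add_ediv_of_dvd_right (dvd_refl _), Int.ediv_self (nP_pos D).ne']
  unfold Fr
  rw [e1, e2]
  ring

/-! ### Runs -/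

/-- the wired arc from `k` to `l` -/
structure Run (D : Win) (k l : ℤ) : Prop where
  le : k ≤ l
  on : ∀ t, k ≤ t → t ≤ l → colp D t = true
  pre : colp D (k - 1) = false
  post : colp D (l + 1) = false

lemma exists_end {c : ℤ → Bool} (n : ℕ) : ∀ a b : ℤ, b = a + n → c a = true → c b = false →
    ∃ l, a ≤ l ∧ l < b ∧ (∀ t, a ≤ t → t ≤ l → c t = true) ∧ c (l + 1) = false := by
  induction n with
  | zero => intro a b h1 h2 h3; rw [h1] at h3; simp [h2] at h3
  | succ n ih =>
    intro a b h1 h2 h3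
    rcases h4 : c (a + 1) with _ | _
    · refine ⟨a, le_rfl, by push_cast at h1; omega, fun t h5 h6 => ?_, h4⟩
      obtain rfl : t = a := by omega
      exact h2
    · obtain ⟨l, h5, h6, h7, h8⟩ := ih (a + 1) b (by push_cast at h1; omega) h4 h3
      refine ⟨l, by omega, h6, fun t h9 h10 => ?_, h8⟩
      rcases (by omega : t = a ∨ a + 1 ≤ t) with rfl | h11
      · exact h2
      · exact h7 t h11 h10

lemma exists_start {c : ℤ → Bool} (n : ℕ) : ∀ a b : ℤ, b = a + n → c a = false → c b = true →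
    ∃ k, a < k ∧ k ≤ b ∧ (∀ t, k ≤ t → t ≤ b → c t = true) ∧ c (k - 1) = false := by
  induction n with
  | zero => intro a b h1 h2 h3; rw [h1] at h3; simp [h2] at h3
  | succ n ih =>
    intro a b h1 h2 h3
    rcases h4 : c (b - 1) with _ | _
    · refine ⟨b, by push_cast at h1; omega, le_rfl, fun t h5 h6 => ?_, h4⟩
      obtain rfl : t = b := by omega
      exact h3
    · obtain ⟨k, h5, h6, h7, h8⟩ := ih a (b - 1) (by push_cast at h1; omega) h2 h4
      refine ⟨k, h5, by omega, fun t h9 h10 => ?_, h8⟩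
      rcases (by omega : t = b ∨ t ≤ b - 1) with rfl | h11
      · exact h3
      · exact h7 t h9 h11

lemma colp_nP (D : Win) (l0 : ℤ) : colp D (l0 + nP D + 1) = colp D (l0 + 1) := by
  rw [show l0 + nP D + 1 = l0 + 1 + nP D by ring, colp_add]

lemma St.run (h0 : colp D (l0 + 1) = false) (h : St D l0 k) : ∃ l, En D l0 l ∧ Run D k l := by
  obtain ⟨h1, h2, h3, h4⟩ := h
  obtain ⟨l, k1, k2, k3, k4⟩ := exists_end (c := colp D) (l0 + nP D + 1 - k).toNat k (l0 + nP D + 1)
    (by omega) h4 (by rw [colp_nP]; exact h0)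
  exact ⟨l, ⟨by omega, by omega, k3 l k1 le_rfl, k4⟩, k1, k3, h3, k4⟩

lemma En.run (h0 : colp D (l0 + 1) = false) (h : En D l0 l) : ∃ k, St D l0 k ∧ Run D k l := by
  obtain ⟨h1, h2, h3, h4⟩ := h
  obtain ⟨k, k1, k2, k3, k4⟩ := exists_start (c := colp D) (l - (l0 + 1)).toNat (l0 + 1) l
    (by omega) h0 h3
  exact ⟨k, ⟨by omega, by omega, k4, k3 k le_rfl k2⟩, k2, k3, k4, h4⟩

lemma Run.uniq (h : Run D k l) (h' : Run D k l') : l = l' := by
  have key : ∀ {l l'}, Run D k l → Run D k l' → ¬ l < l' := fun {l l'} h h' hlt => by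
    have h1 := h'.on (l + 1) (by have := h.le; omega) (by omega)
    rw [h.post] at h1
    exact absurd h1 (by simp)
  have h1 := key h h'
  have h2 := key h' h
  omega

lemma Run.uniq' (h : Run D k l) (h' : Run D k' l) : k = k' := by
  have key : ∀ {k k'}, Run D k l → Run D k' l → ¬ k < k' := fun {k k'} h h' hlt => by
    have h1 := h.on (k' - 1) (by omega) (by have := h'.le; omega)
    rw [h'.pre] at h1
    exact absurd h1 (by simp)
  have h1 := key h h'
  have h2 := key h' h
  omega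

/-- an end is before or behind a run -/
lemma Run.en (h : Run D k l) {e : ℤ} (he : colp D e = true ∧ colp D (e + 1) = false) :
    e + 1 < k ∨ l ≤ e := by
  by_contra hc
  rw [not_or, not_lt, not_le] at hc
  rcases (by omega : e + 1 = k ∨ k ≤ e) with h1 | h1
  · have := h.on k le_rfl h.le
    rw [← h1, he.2] at this
    exact absurd this (by simp)
  · have := h.on (e + 1) (by omega) (by omega)
    rw [he.2] at this
    exact absurd this (by simp)

/-! ### The ports -/

/-- the port of the end `l`, counted from the cut -/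
def pM (D : Win) (l0 l : ℤ) : ℤ := Fr D (l + 1) - 1 - Fr D (l0 + 1)

lemma pM_mono (h : a ≤ b) : pM D l0 a + (b - a) ≤ pM D l0 b := by
  have := Fr_mono D (show a + 1 ≤ b + 1 by omega)
  unfold pM
  omega

lemma pM_inj (h : pM D l0 a = pM D l0 b) : a = b := by
  rcases lt_trichotomy a b with h1 | h1 | h1
  · have := pM_mono (D := D) (l0 := l0) h1.le
    omega
  · exact h1
  · have := pM_mono (D := D) (l0 := l0) h1.le
    omega

open Classical in
/-- the set of the ports -/
noncomputable def PM (D : Win) (l0 : ℤ) : Finset ℤ :=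
  ((Ioc l0 (l0 + nP D)).filter fun l => colp D l = true ∧ colp D (l + 1) = false).image (pM D l0)

open Classical in
/-- the matching of the ports -/
noncomputable def sM (D : Win) (l0 : ℤ) (s : ℤ → ℤ) (i : ℤ) : ℤ :=
  if h : ∃ k l, St D l0 k ∧ Run D k l ∧ pM D l0 l = i then pM D l0 (s h.choose) else 0

lemma mem_PM {i : ℤ} : i ∈ PM D l0 ↔ ∃ l, En D l0 l ∧ pM D l0 l = i := by
  classical
  unfold PM En
  simp only [mem_image, mem_filter, mem_Ioc]
  constructor
  · rintro ⟨l, ⟨⟨h1, h2⟩, h3, h4⟩, h5⟩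
    exact ⟨l, ⟨h1, h2, h3, h4⟩, h5⟩
  · rintro ⟨l, ⟨h1, h2, h3, h4⟩, h5⟩
    exact ⟨l, ⟨⟨h1, h2⟩, h3, h4⟩, h5⟩

lemma sM_eq (hk : St D l0 k) (hr : Run D k l) : sM D l0 s (pM D l0 l) = pM D l0 (s k) := by
  classical
  unfold sM
  have h : ∃ k' l', St D l0 k' ∧ Run D k' l' ∧ pM D l0 l' = pM D l0 l := ⟨k, l, hk, hr, rfl⟩
  rw [dif_pos h]
  obtain ⟨l', -, h2, h3⟩ := h.choose_spec
  rw [pM_inj h3] at h2
  rw [h2.uniq' hr]

/-- **The chords of the ports do not cross.** -/
theorem pat_of_mat (M : Mat D l0 s) : Pat (nP D + 10) (PM D l0) (sM D l0 s) := by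
  have h0 := M.root.2
  have hn := nP_pos D
  have en : ∀ l, En D l0 l → 0 < pM D l0 l ∧ pM D l0 l < nP D + 10 := by
    intro l h
    have h1 : l ≠ l0 + 1 := fun e => by
      have := h.2.2.1
      rw [e, h0] at this
      exact absurd this (by simp)
    have h2 := Fr_mono D (show l0 + 1 ≤ l + 1 by have := h.1; omega)
    have h3 := Fr_mono D (show l + 1 ≤ l0 + 1 + nP D by have := h.2.1; omega)
    rw [Fr_add] at h3
    have h4 := h.1
    have h5 := h.2.1
    unfold pM
    omega
  refine ⟨?_, ?_, ?_, ?_, ?_, ?_, ?_⟩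
  · intro i hi
    obtain ⟨l, h1, rfl⟩ := mem_PM.1 hi
    exact (en l h1).1
  · intro i hi
    obtain ⟨l, h1, rfl⟩ := mem_PM.1 hi
    exact (en l h1).2
  · refine mem_PM.2 ⟨l0 + nP D, ⟨by omega, le_rfl, ?_, ?_⟩, ?_⟩
    · rw [colp_add]; exact M.root.1
    · rw [colp_nP]; exact h0
    · unfold pM
      rw [show l0 + nP D + 1 = l0 + 1 + nP D by ring, Fr_add]
      ring
  · intro i hi
    obtain ⟨l, h1, rfl⟩ := mem_PM.1 hi
    obtain ⟨k, h2, h3⟩ := h1.run h0
    rw [sM_eq h2 h3]
    exact mem_PM.2 ⟨_, M.maps k h2, rfl⟩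
  · intro i hi j hj hij
    obtain ⟨l, h1, rfl⟩ := mem_PM.1 hi
    obtain ⟨l', h1', rfl⟩ := mem_PM.1 hj
    obtain ⟨k, h2, h3⟩ := h1.run h0
    obtain ⟨k', h2', h3'⟩ := h1'.run h0
    rw [sM_eq h2 h3, sM_eq h2' h3'] at hij
    have := M.inj k k' h2 h2' (pM_inj hij)
    subst this
    rw [h3.uniq h3']
  · intro i hi hi'
    obtain ⟨l, h1, rfl⟩ := mem_PM.1 hi
    obtain ⟨l', h1', h4⟩ := mem_PM.1 hi'
    rcases lt_or_ge l l' with h5 | h5
    · have h6 : l' ≠ l + 1 := fun e => by
        have := h1'.2.2.1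
        rw [e, h1.2.2.2] at this
        exact absurd this (by simp)
      have := pM_mono (D := D) (l0 := l0) (show l ≤ l' by omega)
      omega
    · have := pM_mono (D := D) (l0 := l0) h5
      omega
  · intro i hi j hj hij
    obtain ⟨l, h1, rfl⟩ := mem_PM.1 hi
    obtain ⟨l', h1', rfl⟩ := mem_PM.1 hj
    obtain ⟨k, h2, h3⟩ := h1.run h0
    obtain ⟨k', h2', h3'⟩ := h1'.run h0
    have hkk : k ≠ k' := fun e => hij (by subst e; rw [h3.uniq h3'])
    have hll : l ≠ l' := fun e => hkk (by subst e; exact h3.uniq' h3')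
    have hn := M.nc k k' h2 h2' hkk
    have e1 := (M.maps k h2).2.2
    have e2 := (M.maps k' h2').2.2
    have r1 := h3.en e1
    have r2 := h3.en e2
    have r3 := h3'.en e1
    have r4 := h3'.en e2
    have r5 := h3.en h1'.2.2
    have r6 := h3'.en h1.2.2
    have l1 := h3.le
    have l2 := h3'.le
    have lt1 : ∀ {a b}, a < b → pM D l0 a < pM D l0 b := fun {a b} h => by
      have := pM_mono (D := D) (l0 := l0) h.le
      omega
    have lt2 : ∀ {a b}, a + 1 < b → pM D l0 a + 1 < pM D l0 b := fun {a b} h => by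
      have := pM_mono (D := D) (l0 := l0) (show a ≤ b by omega)
      omega
    have le1 : ∀ {a b}, a ≤ b → pM D l0 a < pM D l0 b + 1 := fun {a b} h => by
      have := pM_mono (D := D) (l0 := l0) h
      omega
    -- comparison of a port with an end
    have key : ∀ {k l e}, k ≤ l → (e + 1 < k ∨ l ≤ e) → ((k < e + 1 ∧ pM D l0 l < pM D l0 e + 1) ∨
        (e + 1 < k ∧ pM D l0 e + 1 < pM D l0 l)) := by
      intro k l e h4 h5
      rcases h5 with h5 | h5
      · exact Or.inr ⟨h5, lt2 (by omega)⟩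
      · exact Or.inl ⟨by omega, le1 h5⟩
    have q1 := key l1 r1
    have q2 := key l1 r2
    have q3 := key l2 r3
    have q4 := key l2 r4
    have q5 : (k < k' ∧ pM D l0 l < pM D l0 l') ∨ (k' < k ∧ pM D l0 l' < pM D l0 l) := by
      rcases (by omega : k < k' ∨ k' < k) with h4 | h4
      · exact Or.inl ⟨h4, lt1 (by omega)⟩
      · exact Or.inr ⟨h4, lt1 (by omega)⟩
    have q6 : (s k < s k' ∧ pM D l0 (s k) < pM D l0 (s k')) ∨
        (s k' < s k ∧ pM D l0 (s k') < pM D l0 (s k)) := by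
      have hne : s k ≠ s k' := fun e => hkk (M.inj k k' h2 h2' e)
      rcases (by omega : s k < s k' ∨ s k' < s k) with h4 | h4
      · exact Or.inl ⟨h4, lt1 h4⟩
      · exact Or.inr ⟨h4, lt1 h4⟩
    unfold ca cb at hn ⊢
    rw [sM_eq h2 h3, sM_eq h2' h3']
    clear r1 r2 r3 r4 r5 r6 l1 l2 lt1 lt2 le1 key en
    rcases q1 with q1 | q1 <;> rcases q2 with q2 | q2 <;> rcases q3 with q3 | q3 <;>
      rcases q4 with q4 | q4 <;> rcases q5 with q5 | q5 <;> rcases q6 with q6 | q6 <;> omega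

end Pool.Agent.H83.J
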