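import Mathlib
import Pool.Agent.H13.Sp.RingA
import Pool.Agent.H83.J.Col

set_option autoImplicit false
open Finset

/-! # Levels, positions and paths outside of a box

`B.lv x y` : level of the tile (sup distance from the box), `B.cy x y` : position (rows counterclockwise as in
`BF.pos`; everything below the box belongs to the position `N - 1`, everything above to `2 N - 1`).
`Tj o A t t'` : all the grid points of colour `o` of the tiles `t`, `t'` are joined in colour `o`.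
`B.rp p m` : the tile in the row of the position `p` at the level `m`. `path` : the tiles `rp a 1`, `rp b 1` are
joined if the tiles at the positions `a`, `b` up to the level `m` and the tiles of the level `m` between them have
the colour `o`. -/

namespace Pool.Agent.H83.J

open Pool.Agent.H75.Perc hiding ph cc EE
open Pool.Agent.H75.TwoArm Pool.Agent.Q1 Pool.Agent.H33.Q1
open Pool.Agent.H69.Q1
open Pool.Agent.H74.R45 hiding plab_nx
open Pool.Agent.H13.R45 (gp)
open Pool.Agent.H33.Sp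
open Pool.Agent.H13.Sp
open Pool.Agent.H13.Sp.SR

/-- the grid points of colour `o` of the tiles are joined -/
def Tj (o : Bool) (A : Finset (ℤ × ℤ)) (t t' : ℤ × ℤ) : Prop :=
  ∀ p p', Tch t.1 t.2 p → (p.1 + p.2) % 2 = pt o → Tch t'.1 t'.2 p' → (p'.1 + p'.2) % 2 = pt o → Cn o A p p'

variable {o : Bool} {A : Finset (ℤ × ℤ)} {t t' t'' : ℤ × ℤ}

lemma pt_cases (o : Bool) : pt o = 0 ∨ pt o = 1 := by
  unfold pt; cases o <;> simp

lemma Tj.symm (h : Tj o A t t') : Tj o A t' t := fun p p' h1 h2 h3 h4 => (h p' p h3 h4 h1 h2).symm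

lemma Tj.trans (h : Tj o A t t') (h' : Tj o A t' t'') : Tj o A t t'' := by
  intro p p' h1 h2 h3 h4
  have k := pt_cases o
  refine (h p (t'.1 + (t'.1 + t'.2 + pt o) % 2, t'.2) h1 h2 ?_ ?_).trans
    (h' (t'.1 + (t'.1 + t'.2 + pt o) % 2, t'.2) p' ?_ ?_ h3 h4)
  · unfold Tch; simp only; omega
  · simp only; omega
  · unfold Tch; simp only; omega
  · simp only; omega

lemma Tj.rect {x y x' y' : ℤ} (x0 x1 y0 y1 : ℤ)
    (hD : ∀ x y, x0 ≤ x → x < x1 → y0 ≤ y → y < y1 → (lt (x, y) ∈ A ↔ o = true))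
    (hp : x0 ≤ x ∧ x < x1 ∧ y0 ≤ y ∧ y < y1) (hq : x0 ≤ x' ∧ x' < x1 ∧ y0 ≤ y' ∧ y' < y1) :
    Tj o A (x, y) (x', y') := by
  intro p p' h1 h2 h3 h4
  obtain ⟨a, b⟩ := p
  obtain ⟨c, d⟩ := p'
  unfold Tch at h1 h3
  simp only at h1 h2 h3 h4
  exact crect x0 x1 y0 y1 (by omega) (by omega) hD ⟨by omega, h2⟩ ⟨by omega, h4⟩

lemma Tj.refl {x y : ℤ} (h : lt (x, y) ∈ A ↔ o = true) : Tj o A (x, y) (x, y) :=
  Tj.rect x (x + 1) y (y + 1) (fun a b h1 h2 h3 h4 => by
    obtain rfl : a = x := by omega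
    obtain rfl : b = y := by omega
    exact h) (by omega) (by omega)

end Pool.Agent.H83.J

namespace Pool.Agent.H33.Sp.BF

open Pool.Agent.H83.J
open Pool.Agent.H75.Perc hiding ph cc EE
open Pool.Agent.H75.TwoArm Pool.Agent.Q1 Pool.Agent.H33.Q1
open Pool.Agent.H74.R45 hiding plab_nx

variable (B : BF)

/-- level of a tile -/
def lv (x y : ℤ) : ℤ := max (max (B.x0 - x) (x - B.x1 + 1)) (max (B.y0 - y) (y - B.y1 + 1))

/-- position of a tile outside of the box -/
def cy (x y : ℤ) : ℤ := if y < B.y0 then B.N - 1 else if B.y1 ≤ y then 2 * B.N - 1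
  else if x < B.x0 then B.y1 - 1 - y else B.N + (y - B.y0)

/-- the tile in the row of the position `p` at the level `m` -/
def rp (p m : ℤ) : ℤ × ℤ := if p < B.N then (B.x0 - m, B.y1 - 1 - p) else (B.x1 - 1 + m, B.y0 + (p - B.N))

variable {B} {o : Bool} {A : Finset (ℤ × ℤ)} {m p q x y : ℤ}

lemma lv_pos (h : ¬ B.InB x y) : 1 ≤ B.lv x y := by
  unfold InB at h
  unfold lv
  omega

lemma cy_mem : 0 ≤ B.cy x y ∧ B.cy x y < 2 * B.N ∨ B.InB x y := by
  have := B.hy
  unfold cy InB N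
  split_ifs <;> omega

lemma cy_range (h : ¬ B.InB x y) : 0 ≤ B.cy x y ∧ B.cy x y < 2 * B.N := by
  have h1 := cy_mem (B := B) (x := x) (y := y)
  exact h1.resolve_right h

/-- from one row to the next one at the level `m` -/
lemma rp_step (hm : 1 ≤ m) (h0 : 0 ≤ p) (h1 : p + 1 < 2 * B.N)
    (H : ∀ x y, ¬ B.InB x y → B.lv x y = m → (B.cy x y = p ∨ B.cy x y = p + 1) →
      (lt (x, y) ∈ A ↔ o = true)) : Tj o A (B.rp p m) (B.rp (p + 1) m) := by
  have hx := B.hx
  have hy := B.hy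
  have hN : B.N = B.y1 - B.y0 := rfl
  have key : ∀ x y, (¬ B.InB x y ∧ B.lv x y = m ∧ (B.cy x y = p ∨ B.cy x y = p + 1)) →
    (lt (x, y) ∈ A ↔ o = true) := fun x y h => H x y h.1 h.2.1 h.2.2
  unfold rp
  rcases lt_trichotomy (p + 1) B.N with h | h | h
  · rw [if_pos (by omega), if_pos h]
    refine Tj.rect (B.x0 - m) (B.x0 - m + 1) (B.y1 - 1 - (p + 1)) (B.y1 - p) (fun x y d1 d2 d3 d4 => ?_)
      (by omega) (by omega)
    refine key x y ⟨by unfold InB; omega, by unfold lv; omega, ?_⟩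
    unfold cy
    rw [if_neg (by omega), if_neg (by omega), if_pos (by omega)]
    omega
  · rw [if_pos (by omega), if_neg (by omega)]
    have f1 : B.y1 - 1 - p = B.y0 := by omega
    have f2 : B.y0 + (p + 1 - B.N) = B.y0 := by omega
    rw [f1, f2]
    refine (Tj.rect (B.x0 - m) (B.x0 - m + 1) (B.y0 - m) (B.y0 + 1) (x' := B.x0 - m) (y' := B.y0 - m)
      (fun x y d1 d2 d3 d4 => ?_) (by omega) (by omega)).trans
      ((Tj.rect (B.x0 - m) (B.x1 + m) (B.y0 - m) (B.y0 - m + 1) (x' := B.x1 - 1 + m) (y' := B.y0 - m)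
      (fun x y d1 d2 d3 d4 => ?_) (by omega) (by omega)).trans
      (Tj.rect (B.x1 - 1 + m) (B.x1 + m) (B.y0 - m) (B.y0 + 1) (fun x y d1 d2 d3 d4 => ?_) (by omega)
        (by omega)))
    · refine key x y ⟨by unfold InB; omega, by unfold lv; omega, ?_⟩
      unfold cy
      split_ifs <;> omega
    · refine key x y ⟨by unfold InB; omega, by unfold lv; omega, ?_⟩
      unfold cy
      split_ifs <;> omega
    · refine key x y ⟨by unfold InB; omega, by unfold lv; omega, ?_⟩
      unfold cy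
      split_ifs <;> omega
  · rw [if_neg (by omega), if_neg (by omega)]
    refine Tj.rect (B.x1 - 1 + m) (B.x1 + m) (B.y0 + (p - B.N)) (B.y0 + (p + 1 - B.N) + 1)
      (fun x y d1 d2 d3 d4 => ?_) (by omega) (by omega)
    refine key x y ⟨by unfold InB; omega, by unfold lv; omega, ?_⟩
    unfold cy
    rw [if_neg (by omega), if_neg (by omega), if_neg (by omega)]
    omega

/-- from the last row to the first one at the level `m` -/
lemma rp_wrap (hm : 1 ≤ m)
    (H : ∀ x y, ¬ B.InB x y → B.lv x y = m → (B.cy x y = 2 * B.N - 1 ∨ B.cy x y = 0) →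
      (lt (x, y) ∈ A ↔ o = true)) : Tj o A (B.rp (2 * B.N - 1) m) (B.rp 0 m) := by
  have hx := B.hx
  have hy := B.hy
  have hN : B.N = B.y1 - B.y0 := rfl
  have key : ∀ x y, (¬ B.InB x y ∧ B.lv x y = m ∧ (B.cy x y = 2 * B.N - 1 ∨ B.cy x y = 0)) →
    (lt (x, y) ∈ A ↔ o = true) := fun x y h => H x y h.1 h.2.1 h.2.2
  unfold rp
  rw [if_neg (by omega), if_pos (by omega)]
  have f1 : B.y0 + (2 * B.N - 1 - B.N) = B.y1 - 1 := by omega
  have f2 : B.y1 - 1 - 0 = B.y1 - 1 := by omega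
  rw [f1, f2]
  refine (Tj.rect (B.x1 - 1 + m) (B.x1 + m) (B.y1 - 1) (B.y1 + m) (x' := B.x1 - 1 + m)
    (y' := B.y1 - 1 + m) (fun x y d1 d2 d3 d4 => ?_) (by omega) (by omega)).trans
    ((Tj.rect (B.x0 - m) (B.x1 + m) (B.y1 - 1 + m) (B.y1 + m) (x' := B.x0 - m) (y' := B.y1 - 1 + m)
    (fun x y d1 d2 d3 d4 => ?_) (by omega) (by omega)).trans
    (Tj.rect (B.x0 - m) (B.x0 - m + 1) (B.y1 - 1) (B.y1 + m) (fun x y d1 d2 d3 d4 => ?_) (by omega)
      (by omega)))
  · refine key x y ⟨by unfold InB; omega, by unfold lv; omega, ?_⟩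
    unfold cy
    split_ifs <;> omega
  · refine key x y ⟨by unfold InB; omega, by unfold lv; omega, ?_⟩
    unfold cy
    split_ifs <;> omega
  · refine key x y ⟨by unfold InB; omega, by unfold lv; omega, ?_⟩
    unfold cy
    split_ifs <;> omega

/-- along a row -/
lemma rp_rad (hm : 1 ≤ m) (h0 : 0 ≤ p) (h1 : p < 2 * B.N)
    (H : ∀ x y, ¬ B.InB x y → B.lv x y ≤ m → B.cy x y = p → (lt (x, y) ∈ A ↔ o = true)) :
    Tj o A (B.rp p 1) (B.rp p m) := by
  have hx := B.hx
  have hy := B.hy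
  have hN : B.N = B.y1 - B.y0 := rfl
  unfold rp
  split_ifs with h
  · refine Tj.rect (B.x0 - m) B.x0 (B.y1 - 1 - p) (B.y1 - p) (fun x y d1 d2 d3 d4 => ?_)
      (by omega) (by omega)
    refine H x y (by unfold InB; omega) (by unfold lv; omega) ?_
    unfold cy
    rw [if_neg (by omega), if_neg (by omega), if_pos (by omega)]
    omega
  · refine Tj.rect B.x1 (B.x1 + m) (B.y0 + (p - B.N)) (B.y0 + (p - B.N) + 1) (fun x y d1 d2 d3 d4 => ?_)
      (by omega) (by omega)
    refine H x y (by unfold InB; omega) (by unfold lv; omega) ?_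
    unfold cy
    rw [if_neg (by omega), if_neg (by omega), if_neg (by omega)]
    omega

/-- the position `t` steps behind the position `c` -/
def cyc (B : BF) (c t : ℤ) : ℤ := (c + t) % (2 * B.N)

lemma cyc_mem {c t : ℤ} : 0 ≤ B.cyc c t ∧ B.cyc c t < 2 * B.N := by
  have h := B.N_pos
  exact ⟨Int.emod_nonneg _ (by omega), Int.emod_lt_of_pos _ (by omega)⟩

lemma cyc_succ {c t : ℤ} : (B.cyc c (t + 1) = B.cyc c t + 1 ∧ B.cyc c t + 1 < 2 * B.N) ∨
    (B.cyc c t = 2 * B.N - 1 ∧ B.cyc c (t + 1) = 0) := by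
  have h := cyc_mem (B := B) (c := c) (t := t)
  have h' := cyc_mem (B := B) (c := c) (t := t + 1)
  have hN := B.N_pos
  unfold cyc at h h' ⊢
  have e1 := Int.emod_add_mul_ediv (c + t) (2 * B.N)
  have e2 : (c + (t + 1)) % (2 * B.N) = ((c + t) % (2 * B.N) + 1) % (2 * B.N) := by
    rw [Int.emod_add_emod]; congr 1; ring
  rcases (by omega : (c + t) % (2 * B.N) + 1 < 2 * B.N ∨ (c + t) % (2 * B.N) + 1 = 2 * B.N) with h1 | h1
  · left
    rw [e2, Int.emod_eq_of_lt (by omega) h1]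
    exact ⟨rfl, h1⟩
  · right
    rw [e2, h1, Int.emod_self]
    exact ⟨by omega, rfl⟩

/-- the ring of the level `m` -/
lemma ring {c a b : ℤ} (hm : 1 ≤ m) (hab : a ≤ b)
    (H : ∀ x y t, ¬ B.InB x y → a ≤ t → t ≤ b → B.cy x y = B.cyc c t → B.lv x y = m →
      (lt (x, y) ∈ A ↔ o = true)) : Tj o A (B.rp (B.cyc c a) m) (B.rp (B.cyc c b) m) := by
  have hx := B.hx
  have hy := B.hy
  have hN : B.N = B.y1 - B.y0 := rfl
  obtain ⟨n, hn⟩ : ∃ n : ℕ, b = a + n := ⟨(b - a).toNat, by omega⟩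
  subst hn
  induction n with
  | zero =>
    simp only [Nat.cast_zero, add_zero]
    have hc := cyc_mem (B := B) (c := c) (t := a)
    have h2 : ∀ x y, B.rp (B.cyc c a) m = (x, y) → ¬ B.InB x y ∧ B.cy x y = B.cyc c a ∧ B.lv x y = m := by
      intro x y e
      unfold rp at e
      split_ifs at e with h
      · simp only [Prod.mk.injEq] at e
        refine ⟨by unfold InB; omega, ?_, by unfold lv; omega⟩
        unfold cy
        rw [if_neg (by omega), if_neg (by omega), if_pos (by omega)]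
        omega
      · simp only [Prod.mk.injEq] at e
        refine ⟨by unfold InB; omega, ?_, by unfold lv; omega⟩
        unfold cy
        rw [if_neg (by omega), if_neg (by omega), if_neg (by omega)]
        omega
    obtain ⟨x, y, hxy⟩ : ∃ x y, B.rp (B.cyc c a) m = (x, y) := ⟨_, _, rfl⟩
    rw [hxy]
    obtain ⟨k1, k2, k3⟩ := h2 x y hxy
    exact Tj.refl (H x y a k1 le_rfl (by push_cast; omega) k2 k3)
  | succ n ih =>
    have h1 := ih (by omega) (fun x y t k1 k2 k3 k4 k5 => H x y t k1 k2 (by push_cast; omega) k4 k5)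
    refine h1.trans ?_
    have hc := cyc_mem (B := B) (c := c) (t := a + n)
    have e1 : a + ((n + 1 : ℕ) : ℤ) = a + n + 1 := by push_cast; ring
    rw [e1] at H ⊢
    rcases cyc_succ (B := B) (c := c) (t := a + n) with ⟨h2, h3⟩ | ⟨h2, h3⟩
    · rw [h2]
      refine rp_step hm hc.1 h3 fun x y k1 k2 k3 => ?_
      rcases k3 with k3 | k3
      · exact H x y (a + n) k1 (by omega) (by omega) k3 k2
      · exact H x y (a + n + 1) k1 (by omega) (by omega) (by rw [h2]; exact k3) k2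
    · rw [h2, h3]
      refine rp_wrap hm fun x y k1 k2 k3 => ?_
      rcases k3 with k3 | k3
      · exact H x y (a + n) k1 (by omega) (by omega) (by rw [h2]; exact k3) k2
      · exact H x y (a + n + 1) k1 (by omega) (by omega) (by rw [h3]; exact k3) k2

/-- **A path around the box**: out along the row at `a`, along the ring of the level `m` to `b` and back. -/
theorem path {c a b : ℤ} (hm : 1 ≤ m) (hab : a ≤ b)
    (H : ∀ x y t, ¬ B.InB x y → a ≤ t → t ≤ b → B.cy x y = B.cyc c t → B.lv x y ≤ m →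
      (t = a ∨ t = b ∨ B.lv x y = m) → (lt (x, y) ∈ A ↔ o = true)) :
    Tj o A (B.rp (B.cyc c a) 1) (B.rp (B.cyc c b) 1) := by
  have ha := cyc_mem (B := B) (c := c) (t := a)
  have hb := cyc_mem (B := B) (c := c) (t := b)
  refine (rp_rad hm ha.1 ha.2 fun x y k1 k2 k3 => H x y a k1 le_rfl hab k3 k2 (Or.inl rfl)).trans
    ((ring hm hab fun x y t k1 k2 k3 k4 k5 => H x y t k1 k2 k3 k4 k5.le (Or.inr (Or.inr k5))).trans
    (rp_rad hm hb.1 hb.2 fun x y k1 k2 k3 => H x y b k1 hab le_rfl k3 k2 (Or.inr (Or.inl rfl))).symm)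

end Pool.Agent.H33.Sp.BF
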