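import Mathlib
import Pool.Agent.H83.J.Pth

set_option autoImplicit false
open Finset

/-! # The labels of the canonical outside

`B.WoN P s c M` : the tiles outside of the box which are open in the parity colouring of the chords (`Col`); the
linear position of a tile is counted from the cut `c`. `mem_WoN`, `low_WoN` (up to the level `M` only the rows of
the ports are open), `arc_open`, `arc_closed` (both sides of the chord of `i` are joined), `run_closed` (the level
`1` between two ports), `B.c0N`, `B.k0N`, `B.gN` : the root corner on the port before the cut. -/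

namespace Pool.Agent.H33.Sp.BF

open Pool.Agent.H83.J
open Pool.Agent.H75.Perc hiding ph cc EE
open Pool.Agent.H75.TwoArm Pool.Agent.Q1 Pool.Agent.H33.Q1
open Pool.Agent.H69.Q1
open Pool.Agent.H74.R45 hiding plab_nx
open Pool.Agent.H33.R45 (rco rdco vx_he_S vx_he_N low_of)
open Pool.Agent.H13.R45 (gp)
open Pool.Agent.H13.Sp.SR

variable (B : BF)

/-- position counted from the cut -/
def ln (c x y : ℤ) : ℤ := (B.cy x y - c) % (2 * B.N)

open Classical in
/-- **The labels of the canonical outside** -/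
noncomputable def WoN (P : Finset ℤ) (s : ℤ → ℤ) (c M : ℤ) : Finset (ℤ × ℤ) :=
  ((Icc (B.x0 - (M + 2 * B.N)) (B.x1 + (M + 2 * B.N)) ×ˢ Icc (B.y0 - (M + 2 * B.N)) (B.y1 + (M + 2 * B.N))).filter
    fun t => ¬ B.InB t.1 t.2 ∧ on P s M (B.lv t.1 t.2) (B.ln c t.1 t.2)).image lt

variable {B} {P : Finset ℤ} {s : ℤ → ℤ} {c M m t i x y : ℤ} {A : Finset (ℤ × ℤ)}

lemma ln_mem : 0 ≤ B.ln c x y ∧ B.ln c x y < 2 * B.N := by
  have h := B.N_pos
  exact ⟨Int.emod_nonneg _ (by omega), Int.emod_lt_of_pos _ (by omega)⟩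

/-- position of the tiles at `cyc c t` -/
lemma ln_of (h : B.cy x y = B.cyc c t) : B.ln c x y = t % (2 * B.N) := by
  unfold ln
  rw [h]
  unfold cyc
  rw [Int.emod_sub_emod]
  congr 1
  ring

lemma ln_of' (h : B.cy x y = B.cyc c t) (h0 : 0 ≤ t) (h1 : t < 2 * B.N) : B.ln c x y = t := by
  rw [ln_of h, Int.emod_eq_of_lt h0 h1]

/-- conversely -/
lemma cy_of (h : ¬ B.InB x y) : B.cy x y = B.cyc c (B.ln c x y) := by
  have h1 := cy_range h
  unfold cyc ln
  rw [Int.add_emod_emod, show c + (B.cy x y - c) = B.cy x y by ring, Int.emod_eq_of_lt h1.1 h1.2]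

variable (H : Pat (2 * B.N) P s)

lemma odd_WoN {e : ℤ × ℤ} (he : e ∈ B.WoN P s c M) : (e.1 + e.2) % 2 = 1 := by
  classical
  unfold WoN at he
  simp only [mem_image] at he
  obtain ⟨t, -, rfl⟩ := he
  exact lt_odd t

include H

lemma mem_WoN : lt (x, y) ∈ B.WoN P s c M ↔ ¬ B.InB x y ∧ on P s M (B.lv x y) (B.ln c x y) := by
  classical
  unfold WoN
  simp only [mem_image, mem_filter, mem_product, mem_Icc, Prod.exists]
  constructor
  · rintro ⟨x', y', ⟨-, h5, h7⟩, h6⟩
    have := lt_inj h6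
    simp only [Prod.mk.injEq] at this
    obtain ⟨rfl, rfl⟩ := this
    exact ⟨h5, h7⟩
  · rintro ⟨h1, h2⟩
    refine ⟨x, y, ⟨?_, h1, h2⟩, rfl⟩
    have h3 : B.lv x y < M + 2 * B.N := by
      by_contra h4
      exact H.on_high (by omega) h2
    unfold lv at h3
    omega

/-- the labels are in a square -/
lemma WoN_box (h : lt (x, y) ∈ B.WoN P s c M) : B.lv x y < M + 2 * B.N := by
  by_contra h4
  exact H.on_high (by omega) ((mem_WoN H).1 h).2

/-- **Up to the level `M` only the rows of the ports are open.** -/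
lemma low_WoN (hm : B.lv x y ≤ M) : lt (x, y) ∈ B.WoN P s c M ↔ ¬ B.InB x y ∧ B.ln c x y ∈ P := by
  rw [mem_WoN H, H.on_low hm]

/-- the position behind the cut is closed -/
lemma cut_WoN (h : B.ln c x y = 0) : lt (x, y) ∉ B.WoN P s c M := by
  rw [mem_WoN H, h]
  exact fun h => H.on_out (Or.inl le_rfl) h.2

lemma GBu {A : Finset (ℤ × ℤ)} (hA : ∀ x y, lt (x, y) ∈ A → B.InB x y ∨ lt (x, y) ∈ B.WoN P s c M)
    (h1 : ¬ B.InB x y) (h2 : ¬ on P s M (B.lv x y) (B.ln c x y)) : lt (x, y) ∉ A := by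
  intro h
  rcases hA x y h with h3 | h3
  · exact h1 h3
  · exact h2 ((mem_WoN H).1 h3).2

/-- **The open side of the chord of `i`.** -/
theorem arc_open (hM : 0 ≤ M) (hi : i ∈ P) (hA : B.WoN P s c M ⊆ A) :
    Tj true A (B.rp (B.cyc c i) 1) (B.rp (B.cyc c (s i)) 1) := by
  obtain ⟨k, k1, k2⟩ := H.open_path (M := M) hi
  have i1 := H.pos i hi
  have i2 := H.lt' i hi
  have j1 := H.pos _ (H.maps i hi)
  have j2 := H.lt' _ (H.maps i hi)
  have key : ∀ x y t, ¬ B.InB x y → min i (s i) ≤ t → t ≤ max i (s i) → B.cy x y = B.cyc c t →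
      B.lv x y ≤ k → (t = i ∨ t = s i ∨ B.lv x y = k) → (lt (x, y) ∈ A ↔ true = true) := by
    intro x y t h1 h2 h3 h4 h5 h6
    refine ⟨fun _ => rfl, fun _ => hA ((mem_WoN H).2 ⟨h1, ?_⟩)⟩
    rw [ln_of' h4 (by omega) (by omega)]
    exact k2 _ _ h5 h2 h3 h6
  rcases le_total i (s i) with h | h
  · exact path (m := k) (by omega) h fun x y t h1 h2 h3 h4 h5 h6 =>
      key x y t h1 (by omega) (by omega) h4 h5 (by omega)
  · exact (path (m := k) (by omega) h fun x y t h1 h2 h3 h4 h5 h6 =>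
      key x y t h1 (by omega) (by omega) h4 h5 (by omega)).symm

/-- **The closed side of the chord of `i`.** -/
theorem arc_closed (hM : 0 ≤ M) (hi : i ∈ P)
    (hA : ∀ x y, lt (x, y) ∈ A → B.InB x y ∨ lt (x, y) ∈ B.WoN P s c M) :
    Tj false A (B.rp (B.cyc c (i - 1)) 1) (B.rp (B.cyc c (s i + 1)) 1) := by
  obtain ⟨k, k1, k2⟩ := H.closed_path (M := M) hi
  have i1 := H.pos i hi
  have i2 := H.lt' i hi
  have j1 := H.pos _ (H.maps i hi)
  have j2 := H.lt' _ (H.maps i hi)
  have key : ∀ x y t, ¬ B.InB x y → min (i - 1) (s i + 1) ≤ t → t ≤ max (i - 1) (s i + 1) →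
      B.cy x y = B.cyc c t → B.lv x y ≤ k → (t = i - 1 ∨ t = s i + 1 ∨ B.lv x y = k) →
      (lt (x, y) ∈ A ↔ false = true) := by
    intro x y t h1 h2 h3 h4 h5 h6
    refine ⟨fun h => absurd h (GBu H hA h1 ?_), fun h => by simp at h⟩
    rcases (by omega : t < 2 * B.N ∨ t = 2 * B.N) with h7 | h7
    · rw [ln_of' h4 (by omega) h7]
      exact k2 _ _ h5 h2 h3 h6
    · rw [ln_of h4, h7, Int.emod_self]
      exact H.on_out (Or.inl le_rfl)
  rcases le_total (i - 1) (s i + 1) with h | h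
  · exact path (m := k) (by omega) h fun x y t h1 h2 h3 h4 h5 h6 =>
      key x y t h1 (by omega) (by omega) h4 h5 (by omega)
  · exact (path (m := k) (by omega) h fun x y t h1 h2 h3 h4 h5 h6 =>
      key x y t h1 (by omega) (by omega) h4 h5 (by omega)).symm

/-- **Between two ports** the tiles next to the box are closed. -/
theorem run_closed {a b : ℤ} (hM : 1 ≤ M) (hab : a ≤ b) (hP : ∀ t, a ≤ t → t ≤ b → t % (2 * B.N) ∉ P)
    (hA : ∀ x y, lt (x, y) ∈ A → B.InB x y ∨ lt (x, y) ∈ B.WoN P s c M) :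
    Tj false A (B.rp (B.cyc c a) 1) (B.rp (B.cyc c b) 1) := by
  refine path (m := 1) le_rfl hab fun x y t h1 h2 h3 h4 h5 h6 =>
    ⟨fun h => absurd h (GBu H hA h1 ?_), fun h => by simp at h⟩
  rw [H.on_low (by omega), ln_of h4]
  exact hP t h2 h3

end Pool.Agent.H33.Sp.BF
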