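import Mathlib
import Pool.Agent.H83.J.Out

set_option autoImplicit false
open Finset

/-! # The root of the canonical outside

The cut lies behind the port `X`: `c = B.pos X + 1`. `B.cR X K` : the root corner between the row of the port `X`
and its free row at the level `K`; its vertex and its face are joined with the box along the two rows (`root_open`,
`root_closed`), its face with a face below everything (`root_g`), `root_low`. -/

namespace Pool.Agent.H33.Sp.BF

open Pool.Agent.H83.J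
open Pool.Agent.H75.Perc hiding ph cc EE
open Pool.Agent.H75.TwoArm Pool.Agent.Q1 Pool.Agent.H33.Q1
open Pool.Agent.H69.Q1
open Pool.Agent.H74.R45 hiding plab_nx
open Pool.Agent.H33.R45 (rco rdco vx_he_S vx_he_N low_of)
open Pool.Agent.H13.R45 (gp)
open Pool.Agent.H13.Sp.SR

variable (B : BF)

/-- column of the root corner -/
def xR (X : Bool × ℤ) (K : ℤ) : ℤ := if X.1 then B.x1 - 1 + K else B.x0 - K

/-- line of the root corner -/
def yR (_ : BF) (X : Bool × ℤ) : ℤ := if X.1 then X.2 + 1 else X.2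

/-- **the root corner** at the port `X`, at the level `K` -/
def cR (X : Bool × ℤ) (K : ℤ) : ℤ × ℤ := he (B.xR X K, B.yR X)

/-- type of the root corner -/
def kR (X : Bool × ℤ) (K : ℤ) : ℤ := if (B.xR X K + B.yR X) % 2 = 0 then 2 else 0

/-- a bound for the coordinates -/
def KR (M : ℤ) : ℤ := |B.x0 - (M + 2 * B.N)| + |B.y0 - (M + 2 * B.N)|

/-- a face below everything -/
def gR (M : ℤ) : ℤ × ℤ := gp (-B.KR M - 1, -B.KR M - 2)

variable {B} {P : Finset ℤ} {s : ℤ → ℤ} {c M m t i x y K : ℤ} {A : Finset (ℤ × ℤ)} {X : Bool × ℤ}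

lemma KR_le : -B.KR M ≤ B.x0 - (M + 2 * B.N) ∧ -B.KR M ≤ B.y0 - (M + 2 * B.N) := by
  unfold KR
  have h1 := neg_abs_le (B.x0 - (M + 2 * B.N))
  have h2 := neg_abs_le (B.y0 - (M + 2 * B.N))
  have h3 := abs_nonneg (B.x0 - (M + 2 * B.N))
  have h4 := abs_nonneg (B.y0 - (M + 2 * B.N))
  omega

lemma ty_cR : B.kR X K % 4 = ty (B.cR X K) := by
  unfold kR cR
  rcases Int.emod_two_eq_zero_or_one (B.xR X K + B.yR X) with h | h
  · rw [if_pos h, ty_he_N h]; rfl
  · rw [if_neg (by omega), ty_he_S h]; rfl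

/-- the vertex and the face of the root corner -/
lemma vf_cR : (∃ a, (a = B.xR X K ∨ a = B.xR X K + 1) ∧ (a + B.yR X) % 2 = 0 ∧ vx (B.cR X K) = gp (a, B.yR X)) ∧
    ∃ a, (a = B.xR X K ∨ a = B.xR X K + 1) ∧ (a + B.yR X) % 2 = 1 ∧ fi (B.cR X K) = gp (a, B.yR X) := by
  unfold cR
  rcases Int.emod_two_eq_zero_or_one (B.xR X K + B.yR X) with h | h
  · exact ⟨⟨_, Or.inl rfl, h, (vx_he_N h).1⟩, ⟨_, Or.inr rfl, by omega, (vx_he_N h).2⟩⟩
  · exact ⟨⟨_, Or.inr rfl, by omega, (vx_he_S h).1⟩, ⟨_, Or.inl rfl, h, (vx_he_S h).2⟩⟩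

lemma plab_cR : ∃ y, (y = B.yR X ∨ y = B.yR X - 1) ∧ plab (B.cR X K) = lt (B.xR X K, y) := by
  unfold cR
  rcases Int.emod_two_eq_zero_or_one (B.xR X K + B.yR X) with h | h
  · exact ⟨_, Or.inr rfl, plab_he_N h⟩
  · exact ⟨_, Or.inl rfl, plab_he_S h⟩

/-- the tile of the port row at the level `K` -/
lemma rp_pos (hX : B.IsP X) : B.rp (B.pos X) K = (B.xR X K, X.2) := by
  obtain ⟨a1, a2, a3, a4⟩ := hX
  have hN : B.N = B.y1 - B.y0 := rfl
  unfold rp pos xR
  rcases h : X.1 with _ | _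
  · simp only [Bool.false_eq_true, if_false]
    rw [if_pos (by omega)]
    refine Prod.ext ?_ ?_ <;> simp only; ring
  · simp only [if_true]
    rw [if_neg (by omega)]
    refine Prod.ext ?_ ?_ <;> simp only; ring

/-- the tile of the free row at the level `K` -/
lemma rp_fr (hX : B.IsP X) : B.rp (B.pos X + 1) K = (B.xR X K, B.fr X) := by
  obtain ⟨a1, a2, a3, a4⟩ := hX
  have hN : B.N = B.y1 - B.y0 := rfl
  unfold rp pos xR fr
  rcases h : X.1 with _ | _
  · have := a3 h
    simp only [Bool.false_eq_true, if_false]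
    rw [if_pos (by omega)]
    refine Prod.ext ?_ ?_ <;> simp only; ring
  · have := a4 h
    simp only [if_true]
    rw [if_neg (by omega)]
    refine Prod.ext ?_ ?_ <;> simp only; ring

lemma cyc_last (hX : B.IsP X) : B.cyc (B.pos X + 1) (2 * B.N - 1) = B.pos X := by
  have h := pos_range hX
  unfold cyc
  rw [show B.pos X + 1 + (2 * B.N - 1) = B.pos X + 2 * B.N * 1 by ring, Int.add_mul_emod_self_left,
    Int.emod_eq_of_lt h.1 (by omega)]

lemma cyc_zero (hX : B.IsP X) : B.cyc (B.pos X + 1) 0 = B.pos X + 1 := by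
  have h := pos_range hX
  unfold cyc
  rw [add_zero, Int.emod_eq_of_lt (by omega) (by omega)]

lemma ln_pos (hX : B.IsP X) (h : B.cy x y = B.pos X) : B.ln (B.pos X + 1) x y = 2 * B.N - 1 := by
  have hN := B.N_pos
  exact ln_of' (by rw [h, cyc_last hX]) (by omega) (by omega)

lemma ln_fr (hX : B.IsP X) (h : B.cy x y = B.pos X + 1) : B.ln (B.pos X + 1) x y = 0 := by
  have hN := B.N_pos
  exact ln_of' (by rw [h, cyc_zero hX]) (by omega) (by omega)

variable (H : Pat (2 * B.N) P s) (hX : B.IsP X)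

include H hX

/-- the row of the port is open up to the level `M` -/
lemma port_open (h : B.cy x y = B.pos X) (hl : B.lv x y ≤ M) (hb : ¬ B.InB x y) :
    lt (x, y) ∈ B.WoN P s (B.pos X + 1) M := by
  rw [low_WoN H hl, ln_pos hX h]
  exact ⟨hb, H.last⟩

/-- the free row is closed -/
lemma fr_closed (hA : ∀ x y, lt (x, y) ∈ A → B.InB x y ∨ lt (x, y) ∈ B.WoN P s (B.pos X + 1) M)
    (h : B.cy x y = B.pos X + 1) (hb : ¬ B.InB x y) : lt (x, y) ∉ A := by
  intro h1
  exact cut_WoN H (ln_fr hX h) ((hA x y h1).resolve_left hb)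

/-- **The root vertex** is joined with the box along the port. -/
theorem root_open (h0 : 1 ≤ K) (h1 : K ≤ M) (hA : B.WoN P s (B.pos X + 1) M ⊆ A) {p : ℤ × ℤ}
    (hp : Tch (B.xR X 1) X.2 p) (hp' : (p.1 + p.2) % 2 = 0) : Co A (vx (B.cR X K)) (gp p) := by
  have hr := pos_range hX
  have k1 := rp_rad (B := B) (o := true) (A := A) (m := K) (p := B.pos X) h0 hr.1 (by omega)
    fun x y d1 d2 d3 => ⟨fun _ => rfl, fun _ => hA (port_open H hX d3 (by omega) d1)⟩
  rw [rp_pos hX, rp_pos hX] at k1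
  obtain ⟨⟨a, a1, a2, a3⟩, -⟩ := vf_cR (B := B) (X := X) (K := K)
  rw [a3]
  refine (cn_true.1 (k1 p (a, B.yR X) hp hp' ?_ a2)).symm
  unfold Tch yR
  split_ifs <;> simp only <;> omega

/-- **The root face** is joined with the box along the free row. -/
theorem root_closed (h0 : 1 ≤ K)
    (hA : ∀ x y, lt (x, y) ∈ A → B.InB x y ∨ lt (x, y) ∈ B.WoN P s (B.pos X + 1) M) {p : ℤ × ℤ}
    (hp : Tch (B.xR X 1) (B.fr X) p) (hp' : (p.1 + p.2) % 2 = 1) : DCo A (fi (B.cR X K)) (gp p) := by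
  have hr := pos_range hX
  have k1 := rp_rad (B := B) (o := false) (A := A) (m := K) (p := B.pos X + 1) h0 (by omega) hr.2
    fun x y d1 d2 d3 => ⟨fun h => absurd h (fr_closed H hX hA d3 d1), fun h => by simp at h⟩
  rw [rp_fr hX, rp_fr hX] at k1
  obtain ⟨-, a, a1, a2, a3⟩ := vf_cR (B := B) (X := X) (K := K)
  rw [a3]
  refine (cn_false.1 (k1 p (a, B.yR X) hp hp' ?_ a2)).symm
  unfold Tch yR fr
  split_ifs <;> simp only <;> omega

/-- the face of the root sees a face below everything -/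
theorem root_g (h0 : 1 ≤ K) (h1 : K ≤ M)
    (hA : ∀ x y, lt (x, y) ∈ A → B.InB x y ∨ lt (x, y) ∈ B.WoN P s (B.pos X + 1) M) :
    DCo A (fi (B.cR X K)) (B.gR M) := by
  have k := KR_le (B := B) (M := M)
  have hr := pos_range hX
  have hx := B.hx
  have hy := B.hy
  have hN : B.N = B.y1 - B.y0 := rfl
  have hN0 := B.N_pos
  have far : ∀ x y, B.InB x y ∨ M + 2 * B.N ≤ B.lv x y → ¬ B.InB x y → (lt (x, y) ∈ A ↔ false = true) := by
    intro x y h2 h3
    refine ⟨fun h => ?_, fun h => by simp at h⟩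
    have := WoN_box H ((hA x y h).resolve_left h3)
    have h4 := h2.resolve_left h3
    omega
  obtain ⟨a1, a2, a3, a4⟩ := id hX
  obtain ⟨-, a, b1, b2, b3⟩ := vf_cR (B := B) (X := X) (K := K)
  rw [b3]
  unfold gR
  have key : Tj false A (B.xR X K, B.fr X) (-B.KR M - 2, -B.KR M - 3) := by
    unfold xR fr
    rcases hs : X.1 with _ | _
    · have c1 := a3 hs
      simp only [Bool.false_eq_true, if_false]
      refine (Tj.rect (B.x0 - (M + 2 * B.N) - 1) B.x0 (X.2 - 1) X.2
        (x' := B.x0 - (M + 2 * B.N) - 1) (y' := X.2 - 1) (fun x y d1 d2 d3 d4 => ?_) (by omega)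
        (by omega)).trans ((Tj.rect (B.x0 - (M + 2 * B.N) - 1) (B.x0 - (M + 2 * B.N)) (-B.KR M - 3) X.2
        (x' := B.x0 - (M + 2 * B.N) - 1) (y' := -B.KR M - 3) (fun x y d1 d2 d3 d4 => ?_) (by omega)
        (by omega)).trans (Tj.rect (-B.KR M - 2) (B.x0 - (M + 2 * B.N)) (-B.KR M - 3) (-B.KR M - 2)
        (fun x y d1 d2 d3 d4 => ?_) (by omega) (by omega)))
      · refine ⟨fun h => absurd h (fr_closed H hX hA ?_ (by unfold InB; omega)), fun h => by simp at h⟩
        unfold cy pos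
        rw [if_neg (by omega), if_neg (by omega), if_pos (by omega), hs]
        simp only [Bool.false_eq_true, if_false]
        omega
      · exact far x y (Or.inr (by unfold lv; omega)) (by unfold InB; omega)
      · exact far x y (Or.inr (by unfold lv; omega)) (by unfold InB; omega)
    · have c1 := a4 hs
      simp only [if_true]
      refine (Tj.rect B.x1 (B.x1 + (M + 2 * B.N) + 1) (X.2 + 1) (X.2 + 2)
        (x' := B.x1 + (M + 2 * B.N)) (y' := X.2 + 1) (fun x y d1 d2 d3 d4 => ?_) (by omega)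
        (by omega)).trans ((Tj.rect (B.x1 + (M + 2 * B.N)) (B.x1 + (M + 2 * B.N) + 1) (-B.KR M - 3)
        (X.2 + 2) (x' := B.x1 + (M + 2 * B.N)) (y' := -B.KR M - 3) (fun x y d1 d2 d3 d4 => ?_) (by omega)
        (by omega)).trans (Tj.rect (-B.KR M - 2) (B.x1 + (M + 2 * B.N) + 1) (-B.KR M - 3) (-B.KR M - 2)
        (fun x y d1 d2 d3 d4 => ?_) (by omega) (by omega)))
      · refine ⟨fun h => absurd h (fr_closed H hX hA ?_ (by unfold InB; omega)), fun h => by simp at h⟩
        unfold cy pos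
        rw [if_neg (by omega), if_neg (by omega), if_neg (by omega), hs]
        simp only [if_true]
        omega
      · exact far x y (Or.inr (by unfold lv; omega)) (by unfold InB; omega)
      · exact far x y (Or.inr (by unfold lv; omega)) (by unfold InB; omega)
  refine cn_false.1 (key (a, B.yR X) _ ?_ b2 ?_ ?_)
  · unfold Tch yR fr
    split_ifs <;> simp only <;> omega
  · unfold Tch
    simp only; omega
  · unfold pt
    simp only [Bool.false_eq_true, if_false]
    omega

omit H in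
/-- the face below everything is below the cluster of the root vertex -/
theorem root_low (h0 : 1 ≤ K) (h1 : K ≤ M) (hA : ∀ x y, lt (x, y) ∈ A → B.lv x y < M + 2 * B.N) {v : ℤ × ℤ}
    (hv : Co A (vx (B.cR X K)) v) : (B.gR M).2 < v.2 := by
  have k := KR_le (B := B) (M := M)
  have hr := pos_range hX
  have hx := B.hx
  have hy := B.hy
  have hN0 := B.N_pos
  obtain ⟨a1, a2, a3, a4⟩ := id hX
  obtain ⟨⟨a, b1, b2, b3⟩, -⟩ := vf_cR (B := B) (X := X) (K := K)
  have h2 := low_of (K := B.KR M) (D := A) (fun x y h1 => by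
    have := hA x y h1; unfold lv at this; omega) (v0 := vx (B.cR X K)) (v := v) ?_ hv
  · unfold gR
    rw [gp_snd]; omega
  · rw [b3, gp_snd]
    unfold xR at b1
    unfold yR
    split_ifs at b1 ⊢ <;> omega

end Pool.Agent.H33.Sp.BF
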