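import Mathlib
import Pool.Agent.H33.Sp.Inst
import Pool.Agent.H83.J.Root
import Pool.Agent.H83.J.Mat

set_option autoImplicit false
open Finset

/-! # The canonical outside of a window

`bx D` : the large box of the window. `Xp D l` : the port of the position `l` (its last row on the large box).
`outN M hm` : **the canonical outside** of the matching `M : Mat D l0 s`, wires of length `m` : `OutB D`.
`outN_open`, `outN_closed` : the arc from the start `k` (`e` : the end of its wired arc) to the end `s k`.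
`outN_rv`, `outN_rf` : the root. `outN_low` : near the box only the rows of the ports are open. -/

namespace Pool.Agent.H83.J

open Pool.Agent.H75.Perc hiding ph cc EE
open Pool.Agent.H75.TwoArm Pool.Agent.Q1 Pool.Agent.H33.Q1
open Pool.Agent.H69.Q1
open Pool.Agent.H74.R45 hiding plab_nx
open Pool.Agent.H13.R45 (gp)
open Pool.Agent.H13.Sp.SR
open Pool.Agent.H33.Sp
open Pool.Agent.H46.Sp (Win)
open Pool.Agent.H74.Win (OutB GB InB)
open Pool.Agent.H13.Sp (nP nP_pos colp colp_add)

/-- the large box of the window -/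
def bx (D : Win) : BF := bfD D 2 le_rfl (false, 0)

/-- the last row of the position `l` on the large box -/
def Xp (D : Win) (l : ℤ) : Bool × ℤ :=
  if l % nP D = 0 then (true, -2) else if l % nP D ≤ D.h + 1 then (true, l % nP D - 2)
  else if l % nP D = D.h + 2 then (false, D.h) else (false, 2 * D.h + 2 - l % nP D)

variable {D : Win} {l0 k l e m x y : ℤ} {s : ℤ → ℤ} {A : Finset (ℤ × ℤ)}

lemma bx_x0 : (bx D).x0 = D.a (D.yP - 1) - 4 := rfl
lemma bx_x1 : (bx D).x1 = D.b D.yQ + 4 := rfl
lemma bx_y0 : (bx D).y0 = -4 := rfl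
lemma bx_y1 : (bx D).y1 = D.h + 3 := rfl
lemma bx_N : (bx D).N = D.h + 7 := by
  change D.h + 3 - -4 = D.h + 7
  ring

lemma two_N : 2 * (bx D).N = nP D + 10 := by rw [bx_N]; unfold nP; ring

lemma bx_InB : (bx D).InB x y ↔ InB D x y := inB_bf

lemma bx_GB : (bx D).GB = GB D := GB_bf

lemma isP_Xp : (bx D).IsP (Xp D l) := by
  have h0 := Int.emod_nonneg l (nP_pos D).ne'
  have h1 := Int.emod_lt_of_pos l (nP_pos D)
  have hn : nP D = 2 * D.h + 4 := rfl
  have hh := D.hh
  have e1 : (bx D).y0 = -4 := rfl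
  have e2 : (bx D).y1 = D.h + 3 := rfl
  unfold Xp
  constructor
  · split_ifs <;> simp only <;> omega
  · split_ifs <;> simp only <;> omega
  · split_ifs <;> simp <;> omega
  · split_ifs <;> simp <;> omega

/-- the position on the large box of the last row of `l` -/
lemma pos_Xp : (bx D).pos (Xp D l) = (Fr D (l + 1) - 1) % (2 * (bx D).N) := by
  have h0 := Int.emod_nonneg l (nP_pos D).ne'
  have h1 := Int.emod_lt_of_pos l (nP_pos D)
  have hn : nP D = 2 * D.h + 4 := rfl
  have hh := D.hh
  have e1 : (bx D).y0 = -4 := rfl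
  have e2 : (bx D).y1 = D.h + 3 := rfl
  have e3 := bx_N (D := D)
  have e4 := two_N (D := D)
  have ed := Int.emod_add_mul_ediv l (nP D)
  -- the value of the first row of the next position
  have key : ∃ r, 0 ≤ r ∧ r < nP D + 10 ∧ (∃ q, Fr D (l + 1) - 1 = r + (nP D + 10) * q) ∧
      (bx D).pos (Xp D l) = r := by
    rcases mod_succ (nP_pos D) l with ⟨k1, k2, k3⟩ | ⟨k1, k2, k3⟩
    · rcases (by omega : l % nP D = 0 ∨ (1 ≤ l % nP D ∧ l % nP D ≤ D.h + 1) ∨ l % nP D = D.h + 2 ∨
        D.h + 3 ≤ l % nP D) with c | c | c | c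
      · have hX : Xp D l = (true, -2) := by unfold Xp; rw [if_pos c]
        refine ⟨D.h + 9, by omega, by omega, ⟨l / nP D, ?_⟩, ?_⟩
        · unfold Fr
          rw [k2, k3, if_pos (by omega), if_neg (by omega)]
          linarith
        · unfold BF.pos
          rw [hX, e1, e3]
          simp only [if_true]; ring
      · have hX : Xp D l = (true, l % nP D - 2) := by
          unfold Xp; rw [if_neg (by omega), if_pos (by omega)]
        refine ⟨l % nP D + D.h + 9, by omega, by omega, ⟨l / nP D, ?_⟩, ?_⟩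
        · unfold Fr
          rw [k2, k3, if_pos (by omega), if_neg (by omega)]
          linarith
        · unfold BF.pos
          rw [hX, e1, e3]
          simp only [if_true]; ring
      · have hX : Xp D l = (false, D.h) := by
          unfold Xp; rw [if_neg (by omega), if_neg (by omega), if_pos c]
        refine ⟨2, by omega, by omega, ⟨l / nP D + 1, ?_⟩, ?_⟩
        · unfold Fr
          rw [k2, k3, if_pos (by omega), if_pos (by omega)]
          linarith
        · unfold BF.pos
          rw [hX, e2]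
          simp only [Bool.false_eq_true, if_false]; ring
      · have hX : Xp D l = (false, 2 * D.h + 2 - l % nP D) := by
          unfold Xp; rw [if_neg (by omega), if_neg (by omega), if_neg (by omega)]
        refine ⟨l % nP D - D.h, by omega, by omega, ⟨l / nP D + 1, ?_⟩, ?_⟩
        · unfold Fr
          rw [k2, k3, if_pos (by omega), if_pos (by omega)]
          linarith
        · unfold BF.pos
          rw [hX, e2]
          simp only [Bool.false_eq_true, if_false]; ring
    · have hX : Xp D l = (false, 2 * D.h + 2 - l % nP D) := by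
        unfold Xp; rw [if_neg (by omega), if_neg (by omega), if_neg (by omega)]
      refine ⟨D.h + 3, by omega, by omega, ⟨l / nP D + 1, ?_⟩, ?_⟩
      · unfold Fr
        rw [k2, k3, if_neg (by omega), if_neg (by omega)]
        linarith
      · unfold BF.pos
        rw [hX, e2]
        simp only [Bool.false_eq_true, if_false]; omega
  obtain ⟨r, r0, r1, ⟨q, hq⟩, hr⟩ := key
  rw [hr, hq, e4, Int.add_mul_emod_self_left, Int.emod_eq_of_lt r0 r1]

/-- the cut -/
def ct (D : Win) (l0 : ℤ) : ℤ := (bx D).pos (Xp D l0) + 1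

lemma cyc_ct (t : ℤ) : (bx D).cyc (ct D l0) t = (Fr D (l0 + 1) + t) % (2 * (bx D).N) := by
  unfold BF.cyc ct
  rw [pos_Xp, show (Fr D (l0 + 1) - 1) % (2 * (bx D).N) + 1 + t = (Fr D (l0 + 1) - 1) % (2 * (bx D).N) +
    (1 + t) by ring, Int.emod_add_emod]
  congr 1
  ring

lemma cyc_pM : (bx D).cyc (ct D l0) (pM D l0 l) = (bx D).pos (Xp D l) := by
  rw [cyc_ct, pos_Xp]
  congr 1
  unfold pM
  ring

lemma pat2 (M : Mat D l0 s) : Pat (2 * (bx D).N) (PM D l0) (sM D l0 s) := by
  rw [two_N]; exact pat_of_mat M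

/-- **The canonical outside** -/
noncomputable def outN (M : Mat D l0 s) (m : ℤ) (hm : 1 ≤ m) : OutB D where
  Wo := (bx D).WoN (PM D l0) (sM D l0 s) ((bx D).pos (Xp D l0) + 1) m
  c0 := (bx D).cR (Xp D l0) m
  k0 := (bx D).kR (Xp D l0) m
  g := (bx D).gR m
  far := fun x y h => by
    rw [← bx_InB]
    exact ((BF.mem_WoN (pat2 M)).1 h).1
  hk := BF.ty_cR
  hroot := by
    obtain ⟨y, -, h2⟩ := BF.plab_cR (B := bx D) (X := Xp D l0) (K := m)
    have h3 := (bx D).hx
    rw [h2, ← bx_GB, BF.mem_GB]
    unfold BF.InB BF.xR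
    split_ifs <;> omega
  hg := BF.root_g (pat2 M) isP_Xp hm le_rfl fun x y h => by
    rw [mem_union, ← bx_GB, BF.mem_GB] at h
    exact h
  hlow := fun v hv => BF.root_low isP_Xp hm le_rfl (fun x y h => by
    rw [mem_union, ← bx_GB, BF.mem_GB] at h
    rcases h with h | h
    · have := (bx D).N_pos
      unfold BF.InB at h
      unfold BF.lv
      omega
    · exact BF.WoN_box (pat2 M) h) hv

section arcs

variable (M : Mat D l0 s) (hm : 1 ≤ m)

@[simp] lemma outN_Wo : (outN M m hm).Wo = (bx D).WoN (PM D l0) (sM D l0 s) (ct D l0) m := rfl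
@[simp] lemma outN_c0 : (outN M m hm).c0 = (bx D).cR (Xp D l0) m := rfl

lemma outN_odd {e : ℤ × ℤ} (he : e ∈ (outN M m hm).Wo) : (e.1 + e.2) % 2 = 1 := BF.odd_WoN he

/-- **Near the box only the rows of the ports are open.** -/
theorem outN_low (hl : (bx D).lv x y ≤ m) (h : lt (x, y) ∈ (outN M m hm).Wo) :
    ∃ l, En D l0 l ∧ (bx D).cy x y = (bx D).pos (Xp D l) := by
  rw [outN_Wo, BF.low_WoN (pat2 M) hl] at h
  obtain ⟨l, h1, h2⟩ := mem_PM.1 h.2
  refine ⟨l, h1, ?_⟩
  rw [BF.cy_of (c := ct D l0) h.1, ← h2, cyc_pM]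

/-- the labels are outside of the box -/
lemma hA_of (hA : A ⊆ GB D ∪ (outN M m hm).Wo) (x y : ℤ) (h : lt (x, y) ∈ A) :
    (bx D).InB x y ∨ lt (x, y) ∈ (bx D).WoN (PM D l0) (sM D l0 s) (ct D l0) m := by
  have := hA h
  rw [mem_union, ← bx_GB, BF.mem_GB] at this
  exact this

lemma mem_PM_of (h : En D l0 l) : pM D l0 l ∈ PM D l0 := mem_PM.2 ⟨l, h, rfl⟩

include M in
lemma En_of_run (hk : St D l0 k) (hr : Run D k e) : En D l0 e := by
  obtain ⟨e', h1, h2⟩ := hk.run M.root.2
  rw [hr.uniq h2]; exact h1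

/-- **The open side of the arc of the start `k`.** -/
theorem outN_open (hk : St D l0 k) (hr : Run D k e) (hA : (outN M m hm).Wo ⊆ A) :
    Tj true A ((bx D).rp ((bx D).pos (Xp D e)) 1) ((bx D).rp ((bx D).pos (Xp D (s k))) 1) := by
  have h := BF.arc_open (A := A) (c := ct D l0) (pat2 M) (by omega : 0 ≤ m)
    (mem_PM_of (En_of_run M hk hr)) hA
  rwa [sM_eq hk hr, cyc_pM, cyc_pM] at h

/-- **The closed side of the arc of the start `k`.** -/
theorem outN_closed (hk : St D l0 k) (hA : A ⊆ GB D ∪ (outN M m hm).Wo) :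
    Tj false A ((bx D).rp ((Fr D k - 1) % (2 * (bx D).N)) 1) ((bx D).rp (Fr D (s k + 1) % (2 * (bx D).N)) 1) := by
  obtain ⟨e, he, hr⟩ := hk.run M.root.2
  have hA' := hA_of M hm hA
  have h1 := BF.arc_closed (A := A) (c := ct D l0) (pat2 M) (by omega : 0 ≤ m) (mem_PM_of he) hA'
  rw [sM_eq hk hr] at h1
  have m0 := hr.le
  have m1 := Fr_mono D m0
  have m2 := Fr_succ D e
  have h2 := BF.run_closed (A := A) (c := ct D l0) (a := Fr D k - 1 - Fr D (l0 + 1))
    (b := pM D l0 e - 1) (pat2 M) hm (by unfold pM; omega) (fun t h3 h4 h5 => ?_) hA'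
  · have h3 := h2.trans h1
    have e1 : (bx D).cyc (ct D l0) (Fr D k - 1 - Fr D (l0 + 1)) = (Fr D k - 1) % (2 * (bx D).N) := by
      rw [cyc_ct]; congr 1; ring
    have e2 : (bx D).cyc (ct D l0) (pM D l0 (s k) + 1) = Fr D (s k + 1) % (2 * (bx D).N) := by
      rw [cyc_ct]; congr 1; unfold pM; ring
    rwa [e1, e2] at h3
  · obtain ⟨l, h6, h7⟩ := mem_PM.1 h5
    have n0 := Fr_mono D (show l0 + 1 ≤ k by have := hk.1; omega)
    have n1 := (pat2 M).lt' _ (mem_PM_of he)
    have hne : l0 + 1 ≠ k := fun h => by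
      have := hk.2.2.2
      rw [← h, M.root.2] at this
      exact absurd this (by simp)
    have hk1 := hk.1
    rw [Int.emod_eq_of_lt (by omega) (by omega)] at h7
    -- the end `l` would be inside of the run
    have h8 : k - 1 ≤ l := by
      by_contra hc
      have := Fr_mono D (show l + 1 ≤ k - 1 by omega)
      have := Fr_succ D (k - 1)
      rw [sub_add_cancel] at this
      unfold pM at h7
      omega
    have h9 : l < e := by
      by_contra hc
      have := pM_mono (D := D) (l0 := l0) (show e ≤ l by omega)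
      omega
    rcases (by omega : l = k - 1 ∨ k ≤ l) with h10 | h10
    · have := h6.2.2.1
      rw [h10, hr.pre] at this
      exact absurd this (by simp)
    · have := hr.on (l + 1) (by omega) (by omega)
      rw [h6.2.2.2] at this
      exact absurd this (by simp)

end arcs

/-! ### The points of the boundary of the box -/

section pts

variable {B : BF} {p : ℤ}

lemma tch_nv (B : BF) (p : ℤ) :
    Tch (B.rp p 1).1 (B.rp p 1).2 (B.px p, B.py p + (B.px p + B.py p) % 2) := by
  unfold Tch BF.rp BF.px BF.py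
  split_ifs <;> simp only <;> omega

lemma tch_nd (B : BF) (p : ℤ) :
    Tch (B.rp p 1).1 (B.rp p 1).2 (B.px p, B.py p + (B.px p + B.py p + 1) % 2) := by
  unfold Tch BF.rp BF.px BF.py
  split_ifs <;> simp only <;> omega

/-- joined tiles next to the box: vertices of the boundary -/
lemma co_of_Tj {q : ℤ} (h : Tj true A (B.rp p 1) (B.rp q 1)) : Co A (B.nv p) (B.nv q) :=
  cn_true.1 (h _ _ (tch_nv B p) (by simp only [pt, if_true]; omega) (tch_nv B q)
    (by simp only [pt, if_true]; omega))

/-- joined tiles next to the box: faces of the boundary -/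
lemma dco_of_Tj {q : ℤ} (h : Tj false A (B.rp p 1) (B.rp q 1)) : DCo A (B.nd p) (B.nd q) :=
  cn_false.1 (h _ _ (tch_nd B p) (by simp only [pt, Bool.false_eq_true, if_false]; omega) (tch_nd B q)
    (by simp only [pt, Bool.false_eq_true, if_false]; omega))

end pts

section final

variable (M : Mat D l0 s) (hm : 1 ≤ m)

/-- **The arc of the start `k`, open side**: from the port of its wired arc to the port of `s k`. -/
theorem outN_co (hk : St D l0 k) (hr : Run D k e) (hA : (outN M m hm).Wo ⊆ A) :
    Co A ((bx D).nv ((bx D).pos (Xp D e))) ((bx D).nv ((bx D).pos (Xp D (s k)))) :=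
  co_of_Tj (outN_open M hm hk hr hA)

/-- **The arc of the start `k`, closed side**: from the last row of `k - 1` to the first row of `s k + 1`. -/
theorem outN_dco (hk : St D l0 k) (hA : A ⊆ GB D ∪ (outN M m hm).Wo) :
    DCo A ((bx D).nd ((Fr D k - 1) % (2 * (bx D).N))) ((bx D).nd (Fr D (s k + 1) % (2 * (bx D).N))) :=
  dco_of_Tj (outN_closed M hm hk hA)

/-- **The root vertex** is joined with the port of the end `l0`. -/
theorem outN_rv (hA : (outN M m hm).Wo ⊆ A) :
    Co A (vx (outN M m hm).c0) ((bx D).nv ((bx D).pos (Xp D l0))) := by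
  have hX := isP_Xp (D := D) (l := l0)
  have h1 := BF.pos_range hX
  refine BF.root_open (pat2 M) hX hm le_rfl hA (p := ((bx D).px ((bx D).pos (Xp D l0)), _)) ?_ ?_
  · have h2 := tch_nv (bx D) ((bx D).pos (Xp D l0))
    rwa [BF.rp_pos hX] at h2
  · simp only; omega

/-- **The root face** is joined with the free row of the port of the end `l0`. -/
theorem outN_rf (hA : A ⊆ GB D ∪ (outN M m hm).Wo) :
    DCo A (fi (outN M m hm).c0) ((bx D).nd ((bx D).pos (Xp D l0) + 1)) := by
  have hX := isP_Xp (D := D) (l := l0)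
  have h1 := BF.pos_range hX
  refine BF.root_closed (pat2 M) hX hm (hA_of M hm hA) (p := ((bx D).px ((bx D).pos (Xp D l0) + 1), _)) ?_ ?_
  · have h2 := tch_nd (bx D) ((bx D).pos (Xp D l0) + 1)
    rwa [BF.rp_fr hX] at h2
  · simp only; omega

end final

end Pool.Agent.H83.J
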