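import Mathlib
import Pool.Agent.H83.J.Can
import Pool.Agent.H74.Win.Chg

set_option autoImplicit false
open Finset

/-! # The rows of the large box along a wired arc

`col_Fr` : the rows of the position `t` have the colour `colp D t`. `run_co` : the vertices of the boundary of the
large box in the rows of a wired arc are joined in every set of labels with the ring `cLf`, `cRt`. -/

namespace Pool.Agent.H83.J

open Pool.Agent.H75.Perc hiding ph cc EE
open Pool.Agent.H75.TwoArm Pool.Agent.Q1 Pool.Agent.H33.Q1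
open Pool.Agent.H69.Q1
open Pool.Agent.H74.R45 hiding plab_nx
open Pool.Agent.H33.Sp
open Pool.Agent.H46.Sp (Win)
open Pool.Agent.H74.Win (OutB GB InB cLf cRt)
open Pool.Agent.H13.Sp (nP nP_pos colp colq colp_add col RingC)

variable {D : Win} {k e t r : ℤ} {V : Finset (ℤ × ℤ)}

/-- **The colour of the rows of the position `t`.** -/
theorem col_Fr (h1 : Fr D t ≤ r) (h2 : r < Fr D (t + 1)) :
    col (bx D) (cLf D) (cRt D) (r % (2 * (bx D).N)) = colp D t := by
  have h0 := Int.emod_nonneg t (nP_pos D).ne'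
  have h3 := Int.emod_lt_of_pos t (nP_pos D)
  have hn : nP D = 2 * D.h + 4 := rfl
  have hh := D.hh
  have e3 := bx_N (D := D)
  have e4 := two_N (D := D)
  have ed := Int.emod_add_mul_ediv t (nP D)
  have e5 : (nP D + 10) * (t / nP D) = nP D * (t / nP D) + 10 * (t / nP D) := by ring
  have hc : colp D t = colq D (t % nP D) := rfl
  have e7 : ∀ p, (bx D).py p = if p < D.h + 7 then D.h + 3 - 1 - p else -4 + (p - (D.h + 7)) := by
    intro p
    unfold BF.py
    rw [e3]
    rfl
  -- the residue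
  have hr : ∀ p : ℤ, 0 ≤ p → p < nP D + 10 → (∃ m : ℤ, r = p + (nP D + 10) * m) →
      r % (2 * (bx D).N) = p := by
    rintro p p0 p1 ⟨m, hm⟩
    rw [e4, hm, Int.add_mul_emod_self_left, Int.emod_eq_of_lt p0 p1]
  set j := r - (nP D + 10) * (t / nP D) with hj
  have F1 : (t % nP D = 0 ∧ D.h + 4 ≤ j ∧ j < D.h + 10) ∨
      (1 ≤ t % nP D ∧ t % nP D ≤ D.h + 1 ∧ j = t % nP D + D.h + 9) ∨
      (t % nP D = D.h + 2 ∧ 2 * D.h + 11 ≤ j ∧ j < 2 * D.h + 17) ∨
      (D.h + 3 ≤ t % nP D ∧ j = t % nP D + D.h + 14) := by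
    unfold Fr at h1 h2
    rcases mod_succ (nP_pos D) t with ⟨k1, k2, k3⟩ | ⟨k1, k2, k3⟩
    · rw [k2, k3] at h2
      split_ifs at h1 h2 <;> omega
    · rw [k2, k3] at h2
      split_ifs at h1 h2 <;> omega
  rw [hc]
  unfold colq
  rcases F1 with ⟨c, c1, c2⟩ | ⟨c0, c, c1⟩ | ⟨c, c1, c2⟩ | ⟨c, c1⟩
  · rw [hr j (by omega) (by omega) ⟨t / nP D, by rw [hj]; ring⟩, if_pos c]
    unfold col cLf cRt
    rw [e7, e3]
    split_ifs <;> first | rfl | omega
  · rw [hr j (by omega) (by omega) ⟨t / nP D, by rw [hj]; ring⟩, if_neg (by omega), if_pos (by omega)]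
    unfold col cLf cRt
    rw [e7, e3, if_neg (by omega), if_neg (by omega), if_neg (by omega), if_neg (by omega)]
    congr 1
    omega
  · rw [if_neg (by omega), if_neg (by omega), if_pos c]
    rcases (by omega : j < 2 * D.h + 14 ∨ 2 * D.h + 14 ≤ j) with c3 | c3
    · rw [hr j (by omega) (by omega) ⟨t / nP D, by rw [hj]; ring⟩]
      unfold col cLf cRt
      rw [e7, e3]
      split_ifs <;> first | rfl | omega
    · rw [hr (j - (nP D + 10)) (by omega) (by omega) ⟨t / nP D + 1, by rw [hj]; ring⟩]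
      unfold col cLf cRt
      rw [e7, e3]
      split_ifs <;> first | rfl | omega
  · rw [if_neg (by omega), if_neg (by omega), if_neg (by omega)]
    rw [hr (j - (nP D + 10)) (by omega) (by omega) ⟨t / nP D + 1, by rw [hj]; ring⟩]
    have e8 : (bx D).py (j - (nP D + 10)) = 2 * D.h + 2 - t % nP D := by
      rw [e7, if_pos (by omega)]; omega
    unfold col
    rw [if_pos (by omega), e8]
    unfold cLf
    rw [if_neg (by omega), if_neg (by omega)]

/-- a ring of colours gives `CorI` -/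
lemma corI_of {B : BF} {cl cr : ℤ → Bool} (H : RingC B V cl cr) : B.CorI V (fun p => col B cl cr p = true) := by
  have hN : B.N = B.y1 - B.y0 := rfl
  have hN0 := B.N_pos
  refine ⟨fun p h0 h1 h2 => (H.tl h0 h1).2 h2, fun h1 _ x h3 h4 => (H.bt x h3 h4).2 ?_,
    fun _ h2 x h3 h4 => (H.tp x h3 h4).2 ?_⟩
  · unfold col BF.py at h1
    rw [if_pos (by omega), if_pos (by omega)] at h1
    rwa [show B.y1 - 1 - (B.N - 1) = B.y0 by omega] at h1
  · unfold col BF.py at h2
    rw [if_pos hN0, if_pos hN0] at h2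
    rwa [sub_zero] at h2

/-- a walk along the rows -/
lemma walkI {B : BF} {C : ℤ → Prop} (H : B.CorI V C) {a b : ℤ} (hab : a ≤ b)
    (hC : ∀ r, a ≤ r → r ≤ b → C (r % (2 * B.N))) :
    Co V (B.nv (a % (2 * B.N))) (B.nv (b % (2 * B.N))) := by
  have hN0 := B.N_pos
  obtain ⟨n, hn⟩ : ∃ n : ℕ, b = a + n := ⟨(b - a).toNat, by omega⟩
  subst hn
  induction n with
  | zero => simpa using Co.refl _ _
  | succ n ih =>
    have h1 := ih (by omega) (fun r k1 k2 => hC r k1 (by push_cast; omega))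
    refine h1.trans ?_
    have c1 := hC (a + n) (by omega) (by push_cast; omega)
    have c2 := hC (a + n + 1) (by omega) (by push_cast; omega)
    have e1 : a + ((n + 1 : ℕ) : ℤ) = a + n + 1 := by push_cast; ring
    rw [e1]
    have k0 := Int.emod_nonneg (a + n) (by omega : 2 * B.N ≠ 0)
    rcases mod_succ (by omega : 0 < 2 * B.N) (a + n) with ⟨k1, k2, -⟩ | ⟨k1, k2, -⟩
    · rw [k2] at c2 ⊢
      exact BF.nv_step H k0 k1 c1 c2
    · rw [k2] at c2 ⊢
      have k3 : (a + n) % (2 * B.N) = 2 * B.N - 1 := by omega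
      rw [k3] at c1 ⊢
      exact BF.nv_wrap H c1 c2

/-- **The rows of a wired arc are joined.** -/
theorem run_co (H : RingC (bx D) V (cLf D) (cRt D)) (hr : Run D k e) (h1 : Fr D k ≤ r)
    (h2 : r < Fr D (e + 1)) :
    Co V ((bx D).nv (r % (2 * (bx D).N))) ((bx D).nv ((bx D).pos (Xp D e))) := by
  rw [pos_Xp]
  refine walkI (corI_of H) (by omega) fun r' k1 k2 => ?_
  -- the position of the row `r'`
  obtain ⟨t, t1, t2, t3, t4⟩ : ∃ t, k ≤ t ∧ t ≤ e ∧ Fr D t ≤ r' ∧ r' < Fr D (t + 1) := by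
    have hle := hr.le
    obtain ⟨n, hn⟩ : ∃ n : ℕ, e = k + n := ⟨(e - k).toNat, by omega⟩
    have key : ∀ n : ℕ, ∀ k, Fr D k ≤ r' → r' < Fr D (k + n + 1) →
        ∃ t, k ≤ t ∧ t ≤ k + n ∧ Fr D t ≤ r' ∧ r' < Fr D (t + 1) := by
      intro n
      induction n with
      | zero =>
        intro k h3 h4
        exact ⟨k, le_rfl, by simp, h3, by simpa using h4⟩
      | succ n ih =>
        intro k h3 h4
        rcases lt_or_ge r' (Fr D (k + 1)) with h5 | h5
        · exact ⟨k, le_rfl, by push_cast; omega, h3, h5⟩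
        · obtain ⟨t, t1, t2, t3, t4⟩ := ih (k + 1) h5 (by
            rw [show k + 1 + (n : ℤ) + 1 = k + ((n + 1 : ℕ) : ℤ) + 1 by push_cast; ring]; exact h4)
          exact ⟨t, by omega, by push_cast; omega, t3, t4⟩
    obtain ⟨t, t1, t2, t3, t4⟩ := key n k (by omega) (by rw [← hn]; omega)
    exact ⟨t, t1, by omega, t3, t4⟩
  have := hr.on t t1 t2
  rw [← col_Fr t3 t4] at this
  exact this

end Pool.Agent.H83.J
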