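import Mathlib
import Pool.Agent.H59.J.Inc
import Pool.Agent.H83.J.RunC

set_option autoImplicit false
open Finset

/-! # From the convex corners of the room to the large box

`Wc O o` : the open labels seen by the colour `o`. `to_first`, `to_last` : the grid points of the sides of a convex
corner of the room are joined to the first row of its position, to the last row of the position before, on the
boundary of the large box. -/

namespace Pool.Agent.H83.J

open Pool.Agent.H75.Perc hiding ph cc EE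
open Pool.Agent.H75.TwoArm Pool.Agent.Q1 Pool.Agent.H33.Q1
open Pool.Agent.H69.Q1
open Pool.Agent.H74.R45 hiding plab_nx WN
open Pool.Agent.H13.R45 (gp)
open Pool.Agent.H33.Sp
open Pool.Agent.H13.Sp.SR (Cn crect pt cn_true cn_false)
open Pool.Agent.H13.Sp (pt_cases RingC)
open Pool.Agent.H46.Sp (Win)
open Pool.Agent.H46.Sp.Win
open Pool.Agent.H74.Win (OutB GB InB EN mem_EN WN cLf cRt)
open Pool.Agent.H13.Sp (nP nP_pos colp colp_add)
open Pool.Agent.H59.J (ncl mem_WN_box mem_room nf_top nf_left nf_right m_eq1 m_eq2 M_eq1 M_eq2 tl PosC PosM)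

variable {D : Win} {O : OutB D} {o : Bool} {x y a b k : ℤ}

open Classical in
/-- the open labels seen by the colour `o` -/
noncomputable def Wc (O : OutB D) (o : Bool) : Finset (ℤ × ℤ) :=
  if o = true then WN O false else EN D false ∪ WN O false

lemma mem_Wc (hB : InB D x y) (hE : lt (x, y) ∉ EN D false) :
    lt (x, y) ∈ Wc O o ↔ ncl D (x, y) = true := by
  have h := mem_WN_box (O := O) hB
  unfold Wc
  split_ifs
  · rw [h]; exact ⟨fun h => h.2, fun h => ⟨hE, h⟩⟩
  · rw [mem_union, h]; exact ⟨fun h => (h.resolve_left hE).2, fun h => Or.inr ⟨hE, h⟩⟩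

/-- a tile of the large box outside of the room with the colour `o` -/
def Ok (D : Win) (o : Bool) (x y : ℤ) : Prop := InB D x y ∧ lt (x, y) ∉ EN D false ∧ ncl D (x, y) = o

lemma Ok.mem (h : Ok D o x y) : lt (x, y) ∈ Wc O o ↔ o = true := by
  rw [mem_Wc h.1 h.2.1, h.2.2]

/-- a corner of the tile `(x, y)` of the parity of `o` -/
def Cr (o : Bool) (x y : ℤ) (P : ℤ × ℤ) : Prop :=
  (x ≤ P.1 ∧ P.1 ≤ x + 1 ∧ y ≤ P.2 ∧ P.2 ≤ y + 1) ∧ (P.1 + P.2) % 2 = pt o

/-- the point of the boundary at the position `p` -/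
def bn (B : BF) (o : Bool) (p : ℤ) : ℤ × ℤ := (B.px p, B.py p + (B.px p + B.py p + pt o) % 2)

lemma bn_true (B : BF) (p : ℤ) : gp (bn B true p) = B.nv p := by
  unfold bn BF.nv pt
  simp

lemma bn_false (B : BF) (p : ℤ) : gp (bn B false p) = B.nd p := by
  unfold bn BF.nd pt
  simp

/-- a row to the left -/
lemma rowL {P : ℤ × ℤ} (h0 : -4 ≤ y) (h1 : y ≤ D.h + 2) (hx : (bx D).x0 ≤ x)
    (hc : ∀ x', (bx D).x0 ≤ x' → x' ≤ x → Ok D o x' y) (hP : Cr o x y P) :
    Cn o (Wc O o) P (bn (bx D) o ((bx D).pos (false, y))) := by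
  have hpt := pt_cases o
  have e0 : (bx D).pos (false, y) = D.h + 2 - y := by
    change D.h + 3 - 1 - y = D.h + 2 - y
    ring
  have e1 : (bx D).px (D.h + 2 - y) = (bx D).x0 := by
    unfold BF.px; rw [bx_N, if_pos (by omega)]
  have e2 : (bx D).py (D.h + 2 - y) = y := by
    unfold BF.py; rw [bx_N, if_pos (by omega), bx_y1]; ring
  obtain ⟨P1, P2⟩ := P
  obtain ⟨⟨c1, c2, c3, c4⟩, c5⟩ := hP
  simp only at c1 c2 c3 c4 c5
  rw [e0]
  unfold bn
  rw [e1, e2]
  exact crect (bx D).x0 (x + 1) y (y + 1) (by omega) (by omega)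
    (fun x' y' d1 d2 d3 d4 => by
      obtain rfl : y' = y := by omega
      exact (hc x' d1 (by omega)).mem) ⟨by omega, c5⟩ ⟨by omega, by omega⟩

/-- a row to the right -/
lemma rowR {P : ℤ × ℤ} (h0 : -4 ≤ y) (h1 : y ≤ D.h + 2) (hx : x < (bx D).x1)
    (hc : ∀ x', x ≤ x' → x' < (bx D).x1 → Ok D o x' y) (hP : Cr o x y P) :
    Cn o (Wc O o) P (bn (bx D) o ((bx D).pos (true, y))) := by
  have hpt := pt_cases o
  have hh := D.hh
  have e0 : (bx D).pos (true, y) = D.h + 11 + y := by
    change D.h + 3 - -4 + (y - -4) = D.h + 11 + y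
    ring
  have e1 : (bx D).px (D.h + 11 + y) = (bx D).x1 := by
    unfold BF.px; rw [bx_N, if_neg (by omega)]
  have e2 : (bx D).py (D.h + 11 + y) = y := by
    unfold BF.py; rw [bx_N, if_neg (by omega), bx_y0]; ring
  obtain ⟨P1, P2⟩ := P
  obtain ⟨⟨c1, c2, c3, c4⟩, c5⟩ := hP
  simp only at c1 c2 c3 c4 c5
  rw [e0]
  unfold bn
  rw [e1, e2]
  exact crect x (bx D).x1 y (y + 1) (by omega) (by omega)
    (fun x' y' d1 d2 d3 d4 => by
      obtain rfl : y' = y := by omega
      exact (hc x' d1 (by omega)).mem) ⟨by omega, c5⟩ ⟨by omega, by omega⟩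

/-- one step down -/
lemma step_dn {P : ℤ × ℤ} (h1 : Ok D o x y) (h2 : Ok D o x (y - 1)) (hP : Cr o x y P) :
    ∃ Q, Cr o x (y - 1) Q ∧ Cn o (Wc O o) P Q := by
  have hpt := pt_cases o
  refine ⟨(x + (x + y + pt o) % 2, y), ⟨⟨by simp only; omega, by simp only; omega, by simp only; omega,
    by simp only; omega⟩, by simp only; omega⟩, ?_⟩
  obtain ⟨P1, P2⟩ := P
  obtain ⟨⟨c1, c2, c3, c4⟩, c5⟩ := hP
  simp only at c1 c2 c3 c4 c5
  exact crect x (x + 1) y (y + 1) (by omega) (by omega)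
    (fun x' y' d1 d2 d3 d4 => by
      obtain rfl : y' = y := by omega
      obtain rfl : x' = x := by omega
      exact h1.mem) ⟨by omega, c5⟩ ⟨by omega, by omega⟩

lemma nf_low (h : y < -1) : ncl D (x, y) = D.cb := by
  unfold ncl Pool.Agent.H74.Win.natc
  simp only
  rw [if_pos h]

lemma not_room_lo (h : y < 0) : lt (x, y) ∉ EN D false := fun h' => by rw [mem_room] at h'; omega
lemma not_room_hi (h : D.h ≤ y) : lt (x, y) ∉ EN D false := fun h' => by rw [mem_room] at h'; omega
lemma not_room_m (h : x < D.m y) : lt (x, y) ∉ EN D false := fun h' => by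
  rw [mem_room] at h'
  have := m_le_a (D := D) h'.1
  omega
lemma not_room_M (h : D.M y ≤ x) : lt (x, y) ∉ EN D false := fun h' => by
  rw [mem_room] at h'
  have := b_le_M (D := D) h'.1
  omega

/-- the large box, columns -/
lemma inB' (h0 : (bx D).x0 ≤ x) (h1 : x < (bx D).x1) (h2 : -4 ≤ y) (h3 : y ≤ D.h + 2) : InB D x y := by
  rw [bx_x0] at h0
  rw [bx_x1] at h1
  unfold InB
  omega

lemma okL (h0 : (bx D).x0 ≤ x) (h1 : x < (bx D).x1) (h2 : -1 ≤ y) (h3 : y < D.h) (h4 : x < D.m y) :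
    Ok D (D.cl y) x y :=
  ⟨inB' h0 h1 (by omega) (by omega), not_room_m h4, nf_left h2 h3 h4⟩

lemma okR (h0 : (bx D).x0 ≤ x) (h1 : x < (bx D).x1) (h2 : -1 ≤ y) (h3 : y < D.h) (h4 : D.M y ≤ x) :
    Ok D (D.cr y) x y :=
  ⟨inB' h0 h1 (by omega) (by omega), not_room_M h4, nf_right h2 h3 h4⟩

lemma okT (h0 : (bx D).x0 ≤ x) (h1 : x < (bx D).x1) (h2 : D.h ≤ y) (h3 : y ≤ D.h + 2) :
    Ok D D.ct x y := by
  have := D.hh
  exact ⟨inB' h0 h1 (by omega) (by omega), not_room_hi h2, nf_top h2⟩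

lemma okB (h0 : (bx D).x0 ≤ x) (h1 : x < (bx D).x1) (h2 : -4 ≤ y) (h3 : y < -1) : Ok D D.cb x y := by
  have := D.hh
  exact ⟨inB' h0 h1 (by omega) (by omega), not_room_lo (by omega), nf_low h3⟩

/-- the first row of the position `k` on the large box -/
def Yp (D : Win) (k : ℤ) : Bool × ℤ :=
  if k % nP D = 0 then (false, -2) else if k % nP D ≤ D.h + 1 then (true, k % nP D - 2)
  else if k % nP D = D.h + 2 then (true, D.h) else (false, 2 * D.h + 2 - k % nP D)

/-- the position of the first row -/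
lemma pos_Yp : (bx D).pos (Yp D k) = Fr D k % (2 * (bx D).N) := by
  have h0 := Int.emod_nonneg k (nP_pos D).ne'
  have h1 := Int.emod_lt_of_pos k (nP_pos D)
  have hn : nP D = 2 * D.h + 4 := rfl
  have hh := D.hh
  have e1 : (bx D).y0 = -4 := rfl
  have e2 : (bx D).y1 = D.h + 3 := rfl
  have e3 := bx_N (D := D)
  have e4 := two_N (D := D)
  have ed := Int.emod_add_mul_ediv k (nP D)
  have key : ∃ r, 0 ≤ r ∧ r < nP D + 10 ∧ (∃ q, Fr D k = r + (nP D + 10) * q) ∧
      (bx D).pos (Yp D k) = r := by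
    rcases (by omega : k % nP D = 0 ∨ (1 ≤ k % nP D ∧ k % nP D ≤ D.h + 1) ∨ k % nP D = D.h + 2 ∨
      D.h + 3 ≤ k % nP D) with c | c | c | c
    · have hX : Yp D k = (false, -2) := by unfold Yp; rw [if_pos c]
      refine ⟨D.h + 4, by omega, by omega, ⟨k / nP D, ?_⟩, ?_⟩
      · unfold Fr
        rw [if_neg (by omega), if_neg (by omega)]
        linarith
      · unfold BF.pos
        rw [hX, e2]
        simp only [Bool.false_eq_true, if_false]; ring
    · have hX : Yp D k = (true, k % nP D - 2) := by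
        unfold Yp; rw [if_neg (by omega), if_pos (by omega)]
      refine ⟨k % nP D + D.h + 9, by omega, by omega, ⟨k / nP D, ?_⟩, ?_⟩
      · unfold Fr
        rw [if_pos (by omega), if_neg (by omega)]
        linarith
      · unfold BF.pos
        rw [hX, e1, e3]
        simp only [if_true]; ring
    · have hX : Yp D k = (true, D.h) := by
        unfold Yp; rw [if_neg (by omega), if_neg (by omega), if_pos c]
      refine ⟨2 * D.h + 11, by omega, by omega, ⟨k / nP D, ?_⟩, ?_⟩
      · unfold Fr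
        rw [if_pos (by omega), if_neg (by omega)]
        linarith
      · unfold BF.pos
        rw [hX, e1, e3]
        simp only [if_true]; ring
    · have hX : Yp D k = (false, 2 * D.h + 2 - k % nP D) := by
        unfold Yp; rw [if_neg (by omega), if_neg (by omega), if_neg (by omega)]
      refine ⟨k % nP D - D.h, by omega, by omega, ⟨k / nP D + 1, ?_⟩, ?_⟩
      · unfold Fr
        rw [if_pos (by omega), if_pos (by omega)]
        linarith
      · unfold BF.pos
        rw [hX, e2]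
        simp only [Bool.false_eq_true, if_false]; ring
  obtain ⟨r, r0, r1, ⟨q, hq⟩, hr⟩ := key
  rw [hr, hq, e4, Int.add_mul_emod_self_left, Int.emod_eq_of_lt r0 r1]

end Pool.Agent.H83.J
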