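import Mathlib
import Pool.Agent.H83.J.BoxC

set_option autoImplicit false
open Finset

/-! # The sides of a convex corner of the room and the rows of the large box

`to_last` : the first side of the convex corner at the position `k` is joined with the last row of the position
`k - 1`; `to_first` : the second side with the first row of the position `k`. `ring_WN` : the boundary of the large
box has the colours `cLf`, `cRt`. -/

namespace Pool.Agent.H83.J

open Pool.Agent.H75.Perc hiding ph cc EE
open Pool.Agent.H75.TwoArm Pool.Agent.Q1 Pool.Agent.H33.Q1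
open Pool.Agent.H69.Q1
open Pool.Agent.H74.R45 hiding plab_nx WN
open Pool.Agent.H13.R45 (gp)
open Pool.Agent.H33.Sp
open Pool.Agent.H13.Sp.SR (Cn crect pt cn_true cn_false)
open Pool.Agent.H13.Sp (pt_cases RingC)
open Pool.Agent.H46.Sp (Win)
open Pool.Agent.H46.Sp.Win
open Pool.Agent.H74.Win (OutB GB InB EN mem_EN WN cLf cRt)
open Pool.Agent.H13.Sp (nP nP_pos colp colp_add)
open Pool.Agent.H59.J (ncl mem_WN_box mem_room nf_top nf_left nf_right nf_kL nf_kR kL1 kR1 nf_loL nf_loR nf_bot
  m_eq1 m_eq2 M_eq1 M_eq2 tl tl_mod PosC PosM colp_L colp_R colp_T)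

variable {D : Win} {O : OutB D} {o : Bool} {x y a b k i : ℤ} {q P : ℤ × ℤ}

/-- down, then to the left -/
lemma rowLd (h0 : -3 ≤ y) (h1 : y ≤ D.h + 2) (hx : (bx D).x0 ≤ x) (h : Ok D o x y)
    (hc : ∀ x', (bx D).x0 ≤ x' → x' ≤ x → Ok D o x' (y - 1)) (hP : Cr o x y P) :
    Cn o (Wc O o) P (bn (bx D) o ((bx D).pos (false, y - 1))) := by
  obtain ⟨Q, h2, h3⟩ := step_dn (O := O) h (hc x hx le_rfl) hP
  exact h3.trans (rowL (by omega) (by omega) hx hc h2)

/-- down, then to the right -/
lemma rowRd (h0 : -3 ≤ y) (h1 : y ≤ D.h + 2) (hx : x < (bx D).x1) (h : Ok D o x y)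
    (hc : ∀ x', x ≤ x' → x' < (bx D).x1 → Ok D o x' (y - 1)) (hP : Cr o x y P) :
    Cn o (Wc O o) P (bn (bx D) o ((bx D).pos (true, y - 1))) := by
  obtain ⟨Q, h2, h3⟩ := step_dn (O := O) h (hc x le_rfl hx) hP
  exact h3.trans (rowR (by omega) (by omega) hx hc h2)

lemma Xp_L (h0 : D.h + 3 ≤ k) (h1 : k < nP D) : Xp D k = (false, 2 * D.h + 2 - k) := by
  have hh := D.hh
  unfold Xp
  rw [Int.emod_eq_of_lt (by omega) h1, if_neg (by omega), if_neg (by omega), if_neg (by omega)]

lemma Xp_T : Xp D (D.h + 2) = (false, D.h) := by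
  have hh := D.hh
  unfold Xp
  rw [Int.emod_eq_of_lt (by omega) (by unfold nP; omega), if_neg (by omega), if_neg (by omega), if_pos rfl]

lemma Xp_R (h0 : 1 ≤ k) (h1 : k ≤ D.h + 1) : Xp D k = (true, k - 2) := by
  have hh := D.hh
  unfold Xp
  rw [Int.emod_eq_of_lt (by omega) (by unfold nP; omega), if_neg (by omega), if_pos (by omega)]

lemma Xp_0 : Xp D 0 = (true, -2) := by
  unfold Xp
  rw [Int.zero_emod, if_pos rfl]

lemma Yp_L (h0 : D.h + 3 ≤ k) (h1 : k < nP D) : Yp D k = (false, 2 * D.h + 2 - k) := by
  have hh := D.hh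
  unfold Yp
  rw [Int.emod_eq_of_lt (by omega) h1, if_neg (by omega), if_neg (by omega), if_neg (by omega)]

lemma Yp_T : Yp D (D.h + 2) = (true, D.h) := by
  have hh := D.hh
  unfold Yp
  rw [Int.emod_eq_of_lt (by omega) (by unfold nP; omega), if_neg (by omega), if_neg (by omega), if_pos rfl]

lemma Yp_R (h0 : 1 ≤ k) (h1 : k ≤ D.h + 1) : Yp D k = (true, k - 2) := by
  have hh := D.hh
  unfold Yp
  rw [Int.emod_eq_of_lt (by omega) (by unfold nP; omega), if_neg (by omega), if_pos (by omega)]

lemma Yp_N : Yp D (nP D) = (false, -2) := by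
  unfold Yp
  rw [Int.emod_self, if_pos rfl]

/-- **The first side of a convex corner** is joined with the last row of the position before. -/
theorem to_last (h : PosC D q i k) (ho : colp D (k - 1) = o) (hP : Cr o (tl q (i + 1)).1 (tl q (i + 1)).2 P) :
    Cn o (Wc O o) P (bn (bx D) o ((bx D).pos (Xp D (k - 1)))) := by
  have hh := D.hh
  have P0 := D.P0
  have P1 := D.P1
  have Q0 := D.Q0
  have Q1 := D.Q1
  have hn : nP D = 2 * D.h + 4 := rfl
  obtain ⟨⟨-, hE, -, -⟩, hc, -⟩ := h.spec
  rw [ho] at hc
  have x0 := bx_x0 (D := D)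
  have x1 := bx_x1 (D := D)
  rcases h with ⟨z, h1, h2, h3, rfl, hi, rfl⟩ | ⟨z, h1, h2, h3, rfl, hi, rfl⟩ | ⟨z, h1, h2, h3, rfl, hi, rfl⟩ |
    ⟨z, h1, h2, h3, rfl, hi, rfl⟩
  · -- lower left
    rw [tl_mod (i := i + 1) (k := 3) (by omega)] at hc hP hE
    simp only [tl] at hc hP hE
    norm_num at hc hP hE
    have am := a_min (D := D) h1 (by omega)
    have ab := D.ab z h1 (by omega)
    have bm := b_max (D := D) h1 (by omega)
    rw [show 2 * D.h + 4 - z - 1 = 2 * D.h + 3 - z by ring] at ho ⊢
    rw [colp_L (by omega) (by omega), show 2 * D.h + 2 - (2 * D.h + 3 - z) = z - 1 by ring] at ho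
    rw [Xp_L (by omega) (by omega), show 2 * D.h + 2 - (2 * D.h + 3 - z) = z - 1 by ring]
    have e2 : D.m (z - 1) = D.a z := by
      have := m_eq1 (D := D) (y := z - 1) (by omega)
      rwa [sub_add_cancel] at this
    refine rowLd (x := D.a z - 1) (y := z) (by omega) (by omega) (by omega)
      ⟨inB' (by omega) (by omega) (by omega) (by omega), hE, hc⟩ (fun x' k1 k2 => ?_) hP
    rw [← ho]
    exact okL k1 (by omega) (by omega) (by omega) (by omega)
  · -- upper left
    rw [tl_mod (i := i + 1) (k := 2) (by omega)] at hc hP hE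
    simp only [tl] at hc hP hE
    norm_num at hc hP hE
    have am := a_min (D := D) (y := z - 1) (by omega) (by omega)
    have ab := D.ab (z - 1) (by omega) (by omega)
    have bm := b_max (D := D) (y := z - 1) (by omega) (by omega)
    rw [show 2 * D.h + 3 - z - 1 = 2 * D.h + 2 - z by ring] at ho ⊢
    rcases eq_or_ne z D.h with rfl | hz
    · rw [show 2 * D.h + 2 - D.h = D.h + 2 by ring] at ho ⊢
      rw [colp_T] at ho
      rw [Xp_T]
      refine rowL (x := D.a (D.h - 1)) (by omega) (by omega) (by omega) (fun x' k1 k2 => ?_) hP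
      rw [← ho]
      exact okT k1 (by omega) (by omega) (by omega)
    · have h4 := h3 (by omega)
      rw [colp_L (by omega) (by omega), show 2 * D.h + 2 - (2 * D.h + 2 - z) = z by ring] at ho
      rw [Xp_L (by omega) (by omega), show 2 * D.h + 2 - (2 * D.h + 2 - z) = z by ring]
      have e2 : D.m z = D.a z := m_eq2 (by omega)
      refine rowL (x := D.a (z - 1)) (by omega) (by omega) (by omega) (fun x' k1 k2 => ?_) hP
      rw [← ho]
      exact okL k1 (by omega) (by omega) (by omega) (by omega)
  · -- lower right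
    rw [tl_mod (i := i + 1) (k := 0) (by omega)] at hc hP hE
    simp only [tl] at hc hP hE
    norm_num at hc hP hE
    have am := a_min (D := D) h1 (by omega)
    have ab := D.ab z h1 (by omega)
    have bm := b_max (D := D) h1 (by omega)
    rw [show z + 1 - 1 = z by ring] at ho ⊢
    rcases eq_or_ne z 0 with rfl | hz
    · rw [Xp_0]
      have hcb : ncl D (D.b 0 - 1, -1) = D.cb := nf_bot (by omega) (by omega)
      rw [zero_sub] at hc hE hP
      rw [hcb] at hc
      have := rowRd (O := O) (P := P) (x := D.b 0 - 1) (y := -1) (o := o) (by omega) (by omega) (by omega)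
        ⟨inB' (by omega) (by omega) (by omega) (by omega), hE, by rw [hcb, hc]⟩ (fun x' k1 k2 => ?_) hP
      · rwa [show (-1 : ℤ) - 1 = -2 by ring] at this
      · rw [← hc]
        exact okB (by omega) k2 (by omega) (by omega)
    · have h4 := h3 (by omega)
      rw [colp_R (by omega) (by omega)] at ho
      rw [Xp_R (by omega) (by omega)]
      have e2 : D.M (z - 2) = D.b (z - 1) := by
        have := M_eq1 (D := D) (y := z - 2) (by omega)
        rwa [show z - 2 + 1 = z - 1 by ring] at this
      have := rowRd (O := O) (P := P) (x := D.b z - 1) (y := z - 1) (o := o) (by omega) (by omega) (by omega)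
        ⟨inB' (by omega) (by omega) (by omega) (by omega), hE, hc⟩ (fun x' k1 k2 => ?_) hP
      · rwa [show z - 1 - 1 = z - 2 by ring] at this
      · rw [← ho, show z - 1 - 1 = z - 2 by ring]
        exact okR (by omega) k2 (by omega) (by omega) (by omega)
  · -- upper right
    rw [tl_mod (i := i + 1) (k := 1) (by omega)] at hc hP hE
    simp only [tl] at hc hP hE
    norm_num at hc hP hE
    have am := a_min (D := D) (y := z - 1) (by omega) (by omega)
    have ab := D.ab (z - 1) (by omega) (by omega)
    have bm := b_max (D := D) (y := z - 1) (by omega) (by omega)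
    rw [show z + 2 - 1 = z + 1 by ring] at ho ⊢
    rw [colp_R (by omega) (by omega), show z + 1 - 2 = z - 1 by ring] at ho
    rw [Xp_R (by omega) (by omega), show z + 1 - 2 = z - 1 by ring]
    have e2 : D.M (z - 1) = D.b (z - 1) := M_eq2 (by omega)
    refine rowR (x := D.b (z - 1)) (by omega) (by omega) (by omega) (fun x' k1 k2 => ?_) hP
    rw [← ho]
    exact okR (by omega) k2 (by omega) (by omega) (by omega)

/-- **The second side of a convex corner** is joined with the first row of its position. -/
theorem to_first (h : PosC D q i k) (ho : colp D k = o) (hP : Cr o (tl q (i + 3)).1 (tl q (i + 3)).2 P) :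
    Cn o (Wc O o) P (bn (bx D) o ((bx D).pos (Yp D k))) := by
  have hh := D.hh
  have P0 := D.P0
  have P1 := D.P1
  have Q0 := D.Q0
  have Q1 := D.Q1
  have hn : nP D = 2 * D.h + 4 := rfl
  obtain ⟨⟨-, -, -, hE⟩, -, hc⟩ := h.spec
  rw [ho] at hc
  have x0 := bx_x0 (D := D)
  have x1 := bx_x1 (D := D)
  rcases h with ⟨z, h1, h2, h3, rfl, hi, rfl⟩ | ⟨z, h1, h2, h3, rfl, hi, rfl⟩ | ⟨z, h1, h2, h3, rfl, hi, rfl⟩ |
    ⟨z, h1, h2, h3, rfl, hi, rfl⟩
  · -- lower left
    rw [tl_mod (i := i + 3) (k := 1) (by omega)] at hc hP hE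
    simp only [tl] at hc hP hE
    norm_num at hc hP hE
    have am := a_min (D := D) h1 (by omega)
    have ab := D.ab z h1 (by omega)
    have bm := b_max (D := D) h1 (by omega)
    rcases eq_or_ne z 0 with rfl | hz
    · rw [show 2 * D.h + 4 - 0 = nP D by rw [hn]; ring, Yp_N]
      have hcb : ncl D (D.a 0, -1) = D.cb := nf_bot (by omega) (by omega)
      rw [zero_sub] at hc hE hP
      rw [hcb] at hc
      have := rowLd (O := O) (P := P) (x := D.a 0) (y := -1) (o := o) (by omega) (by omega) (by omega)
        ⟨inB' (by omega) (by omega) (by omega) (by omega), hE, by rw [hcb, hc]⟩ (fun x' k1 k2 => ?_) hP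
      · rwa [show (-1 : ℤ) - 1 = -2 by ring] at this
      · rw [← hc]
        exact okB k1 (by omega) (by omega) (by omega)
    · have h4 := h3 (by omega)
      rw [colp_L (by omega) (by omega), show 2 * D.h + 2 - (2 * D.h + 4 - z) = z - 2 by ring] at ho
      rw [Yp_L (by omega) (by omega), show 2 * D.h + 2 - (2 * D.h + 4 - z) = z - 2 by ring]
      have e2 : D.m (z - 2) = D.a (z - 1) := by
        have := m_eq1 (D := D) (y := z - 2) (by omega)
        rwa [show z - 2 + 1 = z - 1 by ring] at this
      have := rowLd (O := O) (P := P) (x := D.a z) (y := z - 1) (o := o) (by omega) (by omega) (by omega)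
        ⟨inB' (by omega) (by omega) (by omega) (by omega), hE, hc⟩ (fun x' k1 k2 => ?_) hP
      · rwa [show z - 1 - 1 = z - 2 by ring] at this
      · rw [← ho, show z - 1 - 1 = z - 2 by ring]
        exact okL k1 (by omega) (by omega) (by omega) (by omega)
  · -- upper left
    rw [tl_mod (i := i + 3) (k := 0) (by omega)] at hc hP hE
    simp only [tl] at hc hP hE
    norm_num at hc hP hE
    have am := a_min (D := D) (y := z - 1) (by omega) (by omega)
    have ab := D.ab (z - 1) (by omega) (by omega)
    have bm := b_max (D := D) (y := z - 1) (by omega) (by omega)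
    rw [colp_L (by omega) (by omega), show 2 * D.h + 2 - (2 * D.h + 3 - z) = z - 1 by ring] at ho
    rw [Yp_L (by omega) (by omega), show 2 * D.h + 2 - (2 * D.h + 3 - z) = z - 1 by ring]
    have e2 : D.m (z - 1) = D.a (z - 1) := m_eq2 (by omega)
    refine rowL (x := D.a (z - 1) - 1) (by omega) (by omega) (by omega) (fun x' k1 k2 => ?_) hP
    rw [← ho]
    exact okL k1 (by omega) (by omega) (by omega) (by omega)
  · -- lower right
    rw [tl_mod (i := i + 3) (k := 2) (by omega)] at hc hP hE
    simp only [tl] at hc hP hE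
    norm_num at hc hP hE
    have am := a_min (D := D) h1 (by omega)
    have ab := D.ab z h1 (by omega)
    have bm := b_max (D := D) h1 (by omega)
    rw [colp_R (by omega) (by omega), show z + 1 - 2 = z - 1 by ring] at ho
    rw [Yp_R (by omega) (by omega), show z + 1 - 2 = z - 1 by ring]
    have e2 : D.M (z - 1) = D.b z := by
      have := M_eq1 (D := D) (y := z - 1) (by omega)
      rwa [sub_add_cancel] at this
    refine rowRd (x := D.b z) (y := z) (by omega) (by omega) (by omega)
      ⟨inB' (by omega) (by omega) (by omega) (by omega), hE, hc⟩ (fun x' k1 k2 => ?_) hP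
    rw [← ho]
    exact okR (by omega) k2 (by omega) (by omega) (by omega)
  · -- upper right
    rw [tl_mod (i := i + 3) (k := 3) (by omega)] at hc hP hE
    simp only [tl] at hc hP hE
    norm_num at hc hP hE
    have am := a_min (D := D) (y := z - 1) (by omega) (by omega)
    have ab := D.ab (z - 1) (by omega) (by omega)
    have bm := b_max (D := D) (y := z - 1) (by omega) (by omega)
    rcases eq_or_ne z D.h with rfl | hz
    · rw [colp_T] at ho
      rw [Yp_T]
      refine rowR (x := D.b (D.h - 1) - 1) (by omega) (by omega) (by omega) (fun x' k1 k2 => ?_) hP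
      rw [← ho]
      exact okT (by omega) k2 (by omega) (by omega)
    · have h4 := h3 (by omega)
      rw [colp_R (by omega) (by omega), show z + 2 - 2 = z by ring] at ho
      rw [Yp_R (by omega) (by omega), show z + 2 - 2 = z by ring]
      have e2 : D.M z = D.b z := M_eq2 (by omega)
      refine rowR (x := D.b (z - 1) - 1) (by omega) (by omega) (by omega) (fun x' k1 k2 => ?_) hP
      rw [← ho]
      exact okR (by omega) k2 (by omega) (by omega) (by omega)

lemma Ok.memN (h : Ok D o x y) : lt (x, y) ∈ WN O false ↔ o = true := by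
  rw [mem_WN_box h.1, h.2.2]
  exact ⟨fun h => h.2, fun h' => ⟨h.2.1, h'⟩⟩

/-- **The colours of the boundary of the large box.** -/
theorem ring_WN : RingC (bx D) (WN O false) (cLf D) (cRt D) := by
  have hh := D.hh
  have P0 := D.P0
  have P1 := D.P1
  have Q0 := D.Q0
  have Q1 := D.Q1
  have x0 := bx_x0 (D := D)
  have x1 := bx_x1 (D := D)
  have y0 := bx_y0 (D := D)
  have y1 := bx_y1 (D := D)
  have ab := D.ab 0 le_rfl (by omega)
  have am := a_min (D := D) (y := 0) le_rfl (by omega)
  have bm := b_max (D := D) (y := 0) le_rfl (by omega)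
  refine ⟨fun y h0 h1 => ?_, fun y h0 h1 => ?_, fun x h0 h1 => ?_, fun x h0 h1 => ?_⟩
  · refine Ok.memN ?_
    unfold cLf
    split_ifs with c c'
    · exact okB (by omega) (by omega) (by omega) c
    · exact okT (by omega) (by omega) c' (by omega)
    · have := m_min (D := D) (y := y) (by omega) (by omega)
      exact okL (by omega) (by omega) (by omega) (by omega) (by omega)
  · refine Ok.memN ?_
    unfold cRt
    split_ifs with c c'
    · exact okB (by omega) (by omega) (by omega) c
    · exact okT (by omega) (by omega) c' (by omega)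
    · have := M_max (D := D) (y := y) (by omega) (by omega)
      exact okR (by omega) (by omega) (by omega) (by omega) (by omega)
  · refine Ok.memN ?_
    unfold cLf
    rw [if_pos (by omega)]
    exact okB h0 h1 (by omega) (by omega)
  · refine Ok.memN ?_
    unfold cLf
    rw [if_neg (by omega), if_pos (by omega)]
    exact okT h0 h1 (by omega) (by omega)

end Pool.Agent.H83.J
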