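import Mathlib
import Pool.Agent.H83.J.BoxD

set_option autoImplicit false
open Finset

/-! # The arcs of the canonical outside

`arcsAt_outN` : in the plane of the natural window with the canonical outside of the matching `M : Mat D l0 s` the
start at the position `k` is joined to the end at `s k + 1`, the root to the end at `l0 + 1`. -/

namespace Pool.Agent.H83.J

open Pool.Agent.H75.Perc hiding ph cc EE
open Pool.Agent.H75.TwoArm Pool.Agent.Q1 Pool.Agent.H33.Q1
open Pool.Agent.H69.Q1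
open Pool.Agent.H74.R45 hiding plab_nx WN
open Pool.Agent.H13.R45 (gp)
open Pool.Agent.H33.Sp
open Pool.Agent.H13.Sp.SR (Cn crect pt cn_true cn_false)
open Pool.Agent.H13.Sp (pt_cases RingC)
open Pool.Agent.H46.Sp (Win)
open Pool.Agent.H46.Sp.Win
open Pool.Agent.H74.Win (OutB GB InB EN mem_EN WN WNb cLf cRt)
open Pool.Agent.H13.Sp (nP nP_pos colp colp_add)
open Pool.Agent.H59.J (ncl tl nb sd xs ys four sd_even sd_odd JJ PosC PosM ArcsAt colp_mul)

variable {D : Win} {O : OutB D} {o : Bool} {a b k l0 m i : ℤ} {s : ℤ → ℤ} {q P : ℤ × ℤ}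

/-! ### The corners of a tile round a grid point -/

lemma tl_q (q : ℤ × ℤ) (i : ℤ) : (tl q i).1 ≤ q.1 ∧ q.1 ≤ (tl q i).1 + 1 ∧ (tl q i).2 ≤ q.2 ∧
    q.2 ≤ (tl q i).2 + 1 := by
  unfold tl
  split_ifs <;> simp only <;> omega

lemma tl_nb (q : ℤ × ℤ) (i : ℤ) : (tl q i).1 ≤ (nb q i).1 ∧ (nb q i).1 ≤ (tl q i).1 + 1 ∧
    (tl q i).2 ≤ (nb q i).2 ∧ (nb q i).2 ≤ (tl q i).2 + 1 := by
  unfold tl nb
  split_ifs <;> simp only <;> omega

lemma tl_nb' (q : ℤ × ℤ) (i : ℤ) : (tl q (i + 1)).1 ≤ (nb q i).1 ∧ (nb q i).1 ≤ (tl q (i + 1)).1 + 1 ∧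
    (tl q (i + 1)).2 ≤ (nb q i).2 ∧ (nb q i).2 ≤ (tl q (i + 1)).2 + 1 := by
  unfold tl nb
  split_ifs <;> simp only <;> omega

lemma nb_par (q : ℤ × ℤ) (i : ℤ) : ((nb q i).1 + (nb q i).2) % 2 = (q.1 + q.2 + 1) % 2 := by
  unfold nb
  split_ifs <;> simp only <;> omega

lemma cr_q (i : ℤ) (hq : (q.1 + q.2) % 2 = pt o) : Cr o (tl q i).1 (tl q i).2 q := ⟨tl_q q i, hq⟩

lemma cr_nb (i : ℤ) (hq : (q.1 + q.2 + 1) % 2 = pt o) : Cr o (tl q i).1 (tl q i).2 (nb q i) :=
  ⟨tl_nb q i, by rw [nb_par, hq]⟩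

lemma cr_nb' (i : ℤ) (hq : (q.1 + q.2 + 1) % 2 = pt o) : Cr o (tl q (i + 1)).1 (tl q (i + 1)).2 (nb q i) :=
  ⟨tl_nb' q i, by rw [nb_par, hq]⟩

lemma nb_mod {j : ℤ} (h : i % 4 = j % 4) : nb q i = nb q j := by
  unfold nb
  rw [h]

/-- the vertex of the start of an arc -/
lemma xs_vx (q : ℤ × ℤ) (i : ℤ) : ∃ P, Cr true (tl q (i + 3)).1 (tl q (i + 3)).2 P ∧ vx (xs q i) = gp P := by
  unfold xs
  split_ifs with h
  · exact ⟨q, cr_q _ (by rw [h]; rfl), (sd_even h i).2.2.1⟩
  · have h' : (q.1 + q.2) % 2 = 1 := by omega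
    refine ⟨nb q (i - 1), ?_, (sd_odd h' (i - 1)).2.2.2⟩
    rw [nb_mod (j := i + 3) (by omega)]
    exact cr_nb _ (by simp only [pt, if_true]; omega)

/-- the face of the start of an arc -/
lemma xs_fi (q : ℤ × ℤ) (i : ℤ) : ∃ P, Cr false (tl q (i + 1)).1 (tl q (i + 1)).2 P ∧ fi (xs q i) = gp P := by
  unfold xs
  split_ifs with h
  · exact ⟨nb q i, cr_nb' _ (by simp only [pt, Bool.false_eq_true, if_false]; omega), (sd_even h i).2.2.2⟩
  · have h' : (q.1 + q.2) % 2 = 1 := by omega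
    exact ⟨q, cr_q _ (by simp only [pt, Bool.false_eq_true, if_false]; omega), (sd_odd h' (i - 1)).2.2.1⟩

/-- the vertex of the end of an arc -/
lemma ys_vx (q : ℤ × ℤ) (i : ℤ) : ∃ P, Cr true (tl q (i + 1)).1 (tl q (i + 1)).2 P ∧ vx (ys q i) = gp P := by
  unfold ys
  split_ifs with h
  · exact ⟨q, cr_q _ (by rw [h]; rfl), (sd_even h (i - 1)).2.2.1⟩
  · have h' : (q.1 + q.2) % 2 = 1 := by omega
    exact ⟨nb q i, cr_nb' _ (by simp only [pt, if_true]; omega), (sd_odd h' i).2.2.2⟩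

/-- the face of the end of an arc -/
lemma ys_fi (q : ℤ × ℤ) (i : ℤ) : ∃ P, Cr false (tl q (i + 3)).1 (tl q (i + 3)).2 P ∧ fi (ys q i) = gp P := by
  unfold ys
  split_ifs with h
  · refine ⟨nb q (i - 1), ?_, (sd_even h (i - 1)).2.2.2⟩
    rw [nb_mod (j := i + 3) (by omega)]
    exact cr_nb _ (by simp only [pt, Bool.false_eq_true, if_false]; omega)
  · have h' : (q.1 + q.2) % 2 = 1 := by omega
    exact ⟨q, cr_q _ (by simp only [pt, Bool.false_eq_true, if_false]; omega), (sd_odd h' i).2.2.1⟩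

/-! ### Positions modulo the period -/

lemma Fr_mul (k n : ℤ) : Fr D (k + n * nP D) = Fr D k + (nP D + 10) * n := by
  have e1 : (k + n * nP D) % nP D = k % nP D := Int.add_mul_emod_self_right _ _ _
  have e2 : (k + n * nP D) / nP D = k / nP D + n := Int.add_mul_ediv_right _ _ (nP_pos D).ne'
  unfold Fr
  rw [e1, e2]
  ring

/-- the second side of the convex corner at the position `k` -/
lemma first_of (h : PosM D q i k) (ho : colp D k = o) (hP : Cr o (tl q (i + 3)).1 (tl q (i + 3)).2 P) :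
    Cn o (Wc O o) P (bn (bx D) o (Fr D k % (2 * (bx D).N))) := by
  obtain ⟨n, hn⟩ := h
  have h1 := to_first (O := O) hn (by rw [colp_mul]; exact ho) hP
  rwa [pos_Yp, Fr_mul, two_N, Int.add_mul_emod_self_left, ← two_N] at h1

/-- the first side of the convex corner at the position `k` -/
lemma last_of (h : PosM D q i k) (ho : colp D (k - 1) = o) (hP : Cr o (tl q (i + 1)).1 (tl q (i + 1)).2 P) :
    Cn o (Wc O o) P (bn (bx D) o ((Fr D k - 1) % (2 * (bx D).N))) := by
  obtain ⟨n, hn⟩ := h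
  have h1 := to_last (O := O) hn (by
    rw [show k + n * nP D - 1 = k - 1 + n * nP D by ring, colp_mul]; exact ho) hP
  rwa [pos_Xp, sub_add_cancel, Fr_mul, two_N, show Fr D k + (nP D + 10) * n - 1 = Fr D k - 1 + (nP D + 10) * n by
    ring, Int.add_mul_emod_self_left, ← two_N] at h1

lemma pos_Yp_pos : 0 < (bx D).pos (Yp D k) := by
  have h0 := Int.emod_nonneg k (nP_pos D).ne'
  have h1 := Int.emod_lt_of_pos k (nP_pos D)
  have hn : nP D = 2 * D.h + 4 := rfl
  have hh := D.hh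
  have e1 : (bx D).y0 = -4 := rfl
  have e2 : (bx D).y1 = D.h + 3 := rfl
  have e3 := bx_N (D := D)
  unfold BF.pos Yp
  split_ifs <;> simp only <;> omega

lemma pos_Xp_succ (l : ℤ) : (bx D).pos (Xp D l) + 1 = Fr D (l + 1) % (2 * (bx D).N) := by
  have h1 := pos_Yp_pos (D := D) (k := l + 1)
  rw [pos_Yp] at h1
  rw [pos_Xp]
  have hN := (bx D).N_pos
  rcases mod_succ (by omega : 0 < 2 * (bx D).N) (Fr D (l + 1) - 1) with ⟨k1, k2, -⟩ | ⟨k1, k2, -⟩
  · rw [sub_add_cancel] at k2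
    rw [k2]
  · rw [sub_add_cancel] at k2
    omega

/-! ### The arcs -/

/-- **The arcs of the canonical outside.** -/
theorem arcsAt_outN (M : Mat D l0 s) (hm : 1 ≤ m) :
    ArcsAt D (WN (outN M m hm) false) (outN M m hm).c0 l0 s := by
  set O := outN M m hm with hO
  have hW : O.Wo ⊆ WN O false := subset_union_right
  have hA : EN D false ∪ WN O false ⊆ GB D ∪ O.Wo := by
    intro e he
    rw [mem_union] at he ⊢
    have key : ∀ {R : ℤ → ℤ → Prop}, e ∈ Pool.Agent.H74.Win.TB D R → e ∈ GB D := by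
      intro R h
      obtain ⟨x, y, rfl⟩ := exists_lt (Pool.Agent.H74.Win.odd_TB h)
      rw [Pool.Agent.H74.Win.mem_GB]
      exact (Pool.Agent.H74.Win.mem_TB.1 h).1
    rcases he with he | he
    · exact Or.inl (key he)
    · rcases mem_union.1 he with he | he
      · exact Or.inl (key he)
      · exact Or.inr he
  constructor
  · intro k a b hk q i q' i' h1 h2
    have hS : St D l0 k := ⟨a, b, hk.1, hk.2⟩
    obtain ⟨e, -, hr⟩ := hS.run M.root.2
    have hE := M.maps k hS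
    constructor
    · obtain ⟨P, p1, p2⟩ := xs_vx q i
      obtain ⟨P', p3, p4⟩ := ys_vx q' i'
      rw [p2, p4]
      have c1 := cn_true.1 (first_of (O := O) h1 hk.2 p1)
      have c2 := run_co (ring_WN (O := O)) hr le_rfl (by
        have := Fr_mono D (show k ≤ e + 1 by have := hr.le; omega)
        have := hr.le
        omega)
      have c3 := outN_co M hm hS hr hW
      have c4 := cn_true.1 (last_of (O := O) h2 (by rw [add_sub_cancel_right]; exact hE.2.2.1) p3)
      rw [bn_true] at c1 c4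
      rw [pos_Xp (l := s k)] at c3
      exact c1.trans (c2.trans (c3.trans c4.symm))
    · obtain ⟨P, p1, p2⟩ := xs_fi q i
      obtain ⟨P', p3, p4⟩ := ys_fi q' i'
      rw [p2, p4]
      have c1 := cn_false.1 (last_of (O := O) h1 hk.1 p1)
      have c2 := outN_dco M hm hS hA
      have c3 := cn_false.1 (first_of (O := O) h2 hE.2.2.2 p3)
      rw [bn_false] at c1 c3
      exact c1.trans (c2.trans c3.symm)
  · intro q i h1
    constructor
    · obtain ⟨P, p1, p2⟩ := ys_vx q i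
      rw [p2]
      have c1 := outN_rv M hm hW
      have c2 := cn_true.1 (last_of (O := O) h1 (by rw [add_sub_cancel_right]; exact M.root.1) p1)
      rw [bn_true] at c2
      rw [pos_Xp] at c1
      exact c1.trans c2.symm
    · obtain ⟨P, p1, p2⟩ := ys_fi q i
      rw [p2]
      have c1 := outN_rf M hm hA
      have c2 := cn_false.1 (first_of (O := O) h1 M.root.2 p1)
      rw [bn_false] at c2
      rw [pos_Xp_succ] at c1
      exact c1.trans c2.symm

end Pool.Agent.H83.J
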