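import Mathlib
import Pool.Agent.H83.J.Mat
import Pool.Agent.H40.W.R3.Mat

set_option autoImplicit false

/-! # The matchings of `H40/W/R3/Mat` are matchings of `H83/J/Mat`, and conversely -/

namespace Pool.Agent.H83.J

open Pool.Agent.H46.Sp (Win)
open Pool.Agent.H13.Sp (nP colp)
open Pool.Agent.H40.W.R3 (MatA)

variable {D : Win} {l0 : ℤ} {s : ℤ → ℤ}

theorem mat_of (h : MatA (nP D) (colp D) l0 s) : Mat D l0 s where
  root := h.root
  maps := fun k hk => by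
    have := h.maps k hk.1 hk.2.1 hk.2.2
    exact ⟨this.1, this.2.1, this.2.2.1, this.2.2.2⟩
  inj := fun k k' hk hk' => h.inj k k' hk.1 hk.2.1 hk.2.2 hk'.1 hk'.2.1 hk'.2.2
  nc := fun k k' hk hk' => h.nc k k' hk.1 hk.2.1 hk.2.2 hk'.1 hk'.2.1 hk'.2.2

theorem matA_of (h : Mat D l0 s) : MatA (nP D) (colp D) l0 s where
  root := h.root
  maps := fun k h1 h2 hk => by
    have := h.maps k ⟨h1, h2, hk⟩
    exact ⟨this.1, this.2.1, this.2.2.1, this.2.2.2⟩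
  inj := fun k k' h1 h2 hk h1' h2' hk' => h.inj k k' ⟨h1, h2, hk⟩ ⟨h1', h2', hk'⟩
  nc := fun k k' h1 h2 hk h1' h2' hk' => h.nc k k' ⟨h1, h2, hk⟩ ⟨h1', h2', hk'⟩

end Pool.Agent.H83.J
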