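import Mathlib
import Pool.Agent.H83.J.Can

set_option autoImplicit false
open Finset

/-! # The labels of the canonical outside are odd -/

namespace Pool.Agent.H83.J

open Pool.Agent.H33.Q1
open Pool.Agent.H46.Sp (Win)

variable {D : Win} {l0 m : ℤ} {s : ℤ → ℤ}

/-- **The labels of the canonical outside are odd.** -/
theorem odd_N (M : Mat D l0 s) (hm : 1 ≤ m) : ∀ e ∈ (outN M m hm).Wo, (e.1 + e.2) % 2 = 1 := by
  intro e he
  have h : e ∈ (bx D).WoN (PM D l0) (sM D l0 s) ((bx D).pos (Xp D l0) + 1) m := he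
  unfold Pool.Agent.H33.Sp.BF.WoN at h
  obtain ⟨t, -, rfl⟩ := mem_image.1 h
  exact lt_odd t

end Pool.Agent.H83.J
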