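import Mathlib
import Pool.Agent.H21.J.OutOK
import Pool.Agent.H83.J.ArcsN
import Pool.Agent.H83.J.MatA
import Pool.Agent.H83.J.Odd

set_option autoImplicit false

/-! # Canonical outsides exist

For every noncrossing matching of the starts and ends of the wired arcs of a window and every `m` there is a good
outside with exactly these arcs. -/

namespace Pool.Agent.H83.J

open Pool.Agent.H46.Sp (Win)
open Pool.Agent.H74.Win (OutB WN)
open Pool.Agent.H13.Sp (nP colp)
open Pool.Agent.H40.W.R3 (MatA)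
open Pool.Agent.H20.Sp (OutOK)
open Pool.Agent.H52.W (OTyN)
open Pool.Agent.H59.J (ArcsAt)

variable {D : Win} {l0 m : ℤ} {s : ℤ → ℤ}

/-- **Canonical outsides exist.** -/
theorem exists_out (h : MatA (nP D) (colp D) l0 s) (hm : 1 ≤ m) :
    ∃ O : OutB D, (OutOK O m ∧ OTyN O) ∧ (∀ e ∈ O.Wo, (e.1 + e.2) % 2 = 1) ∧
      ArcsAt D (WN O false) O.c0 l0 s := by
  have h1 : 1 ≤ m + 8 := by omega
  exact ⟨outN (mat_of h) (m + 8) h1, ⟨Pool.Agent.H21.J.outOK_N _ _ (by omega),
    Pool.Agent.H21.J.oTyN_N _ _ (by omega)⟩, odd_N _ _, arcsAt_outN _ _⟩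

end Pool.Agent.H83.J
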